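import Pool.Agent.DYM.OddReg

/-!
# Bridge: Steinhaus matrices given by their defining rules
-/

set_option autoImplicit false

namespace Pool.Agent.DYM

open Finset

/-- A symmetric matrix with zero diagonal obeying the Steinhaus rule is `mat` of its first row. -/
theorem eq_mat {n : ℕ} {A : ℕ → ℕ → ZMod 2} (hd : ∀ i, i < n → A i i = 0)
    (hs : ∀ i j, i < n → j < n → A i j = A j i)
    (hr : ∀ i j, i < j → j + 1 < n → A (i + 1) (j + 1) = A i j + A i (j + 1)) {i j : ℕ}
    (hi : i < n) (hj : j < n) : A i j = mat (fun k => A 0 k) i j := by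
  have key : ∀ i j, i < j → j < n → A i j = entry (fun k => A 0 k) i j := by
    intro i
    induction i with
    | zero => intro j _ _; rfl
    | succ i ih =>
      intro j h1 h2
      obtain ⟨k, rfl⟩ : ∃ k, j = k + 1 := ⟨j - 1, by omega⟩
      rw [hr i k (by omega) h2, ih k (by omega) (by omega), ih (k + 1) (by omega) h2]
      rfl
  unfold mat
  split_ifs with h1 h2
  · exact key i j h1 hj
  · rw [hs i j hi hj]; exact key j i h2 hi
  · obtain rfl : i = j := by omega
    exact hd i hi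

theorem card_eq_deg {n : ℕ} {A : ℕ → ℕ → ZMod 2} (hd : ∀ i, i < n → A i i = 0)
    (hs : ∀ i j, i < n → j < n → A i j = A j i)
    (hr : ∀ i j, i < j → j + 1 < n → A (i + 1) (j + 1) = A i j + A i (j + 1)) {i : ℕ}
    (hi : i < n) :
    ((Finset.range n).filter (fun j => A i j = 1)).card = deg n (fun k => A 0 k) i := by
  unfold deg
  congr 1
  refine filter_congr fun j hj => ?_
  rw [eq_mat hd hs hr hi (mem_range.1 hj)]

theorem pal_matrix (n : ℕ) (A B : ℕ → ℕ → ZMod 2)
    (hA1 : ∀ i, i < n → A i i = 0)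
    (hA2 : ∀ i j, i < n → j < n → A i j = A j i)
    (hA3 : ∀ i j, i < j → j + 1 < n → A (i + 1) (j + 1) = A i j + A i (j + 1))
    (hB1 : ∀ i, i < n → B i i = 0)
    (hB2 : ∀ i j, i < n → j < n → B i j = B j i)
    (hB3 : ∀ i j, i < j → j + 1 < n → B (i + 1) (j + 1) = B i j + B i (j + 1))
    (hmod : ∀ i, i < n → ((Finset.range n).filter (fun j => A i j = 1)).card ≡
      ((Finset.range n).filter (fun j => B i j = 1)).card [MOD 4])
    (heven : ∀ i, i < n → Even ((Finset.range n).filter (fun j => A i j = 1)).card)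
    (hA4 : ∀ j, 1 ≤ j → j < n → A 0 j = A 0 (n - j))
    (hB4 : ∀ j, 1 ≤ j → j < n → B 0 j = B 0 (n - j)) :
    ∀ j, j < n → A 0 j = B 0 j := by
  intro j hj
  rcases Nat.eq_zero_or_pos j with rfl | h
  · rw [hA1 0 hj, hB1 0 hj]
  · refine pal_pair (s := fun k => A 0 k) (t := fun k => B 0 k) hA4 hB4 (fun i hi => ?_)
      (fun i hi => ?_) j h hj
    · rw [← card_eq_deg hA1 hA2 hA3 hi]; exact heven i hi
    · rw [← card_eq_deg hA1 hA2 hA3 hi, ← card_eq_deg hB1 hB2 hB3 hi]
      exact hmod i hi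

theorem odd_matrix (n : ℕ) (hn : 2 ≤ n) (A : ℕ → ℕ → ZMod 2)
    (hA1 : ∀ i, i < n → A i i = 0)
    (hA2 : ∀ i j, i < n → j < n → A i j = A j i)
    (hA3 : ∀ i j, i < j → j + 1 < n → A (i + 1) (j + 1) = A i j + A i (j + 1))
    (r : ℕ) (hr : Odd r)
    (hdeg : ∀ i, i < n → ((Finset.range n).filter (fun j => A i j = 1)).card = r) : n = 2 := by
  refine odd_regular hn (s := fun k => A 0 k) hr fun i hi => ?_
  rw [← card_eq_deg hA1 hA2 hA3 hi]
  exact hdeg i hi

end Pool.Agent.DYM
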