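import Pool.Agent.DYM.Val

/-!
# CoreA: structure of palindromic recursive arrays over F_2

With `P m = sum_{i <= n - 4 m} h m i X ^ i` one has
`(1 + X ^ 2) P m = h m 2 (X ^ 2 + X ^ (n - 4 m)) + X ^ 3 P (m+1)`.  Let `j` be the largest index with
`4 j + 2 <= n`, `h j 2 = 1`; then `P m = 0` for `m > j`, `n - 4 j` is even and is 2 mod 3, and the
lemma on the multiplicities at `1` gives `10 j + 8 <= n`.
-/

set_option autoImplicit false

namespace Pool.Agent.DYM

open Finset Polynomial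

private noncomputable def CoreA_P (n : ℕ) (h : ℕ → ℕ → ZMod 2) (m : ℕ) : (ZMod 2)[X] :=
  ∑ i ∈ range (n + 1 - 4 * m), C (h m i) * X ^ i

private theorem CoreA_coeff (n : ℕ) (h : ℕ → ℕ → ZMod 2) (m k : ℕ) :
    (CoreA_P n h m).coeff k = if k < n + 1 - 4 * m then h m k else 0 := by
  unfold CoreA_P
  rw [finsetSum_coeff]
  simp only [coeff_C_mul, coeff_X_pow, mul_ite, mul_one, mul_zero]
  rw [sum_ite_eq (range (n + 1 - 4 * m)) k (fun i => h m i)]
  simp only [mem_range]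

private theorem CoreA_rec (n : ℕ) (h : ℕ → ℕ → ZMod 2)
    (hR : ∀ m k, h (m + 1) k = h m (k + 1) + h m (k + 3))
    (hZ0 : ∀ m, 3 * m ≤ n → h m 0 = 0)
    (hZ1 : ∀ m, 3 * m + 1 ≤ n → h m 1 = 0)
    (hP : ∀ m k, 4 * m + k ≤ n → h m k = h m (n - 4 * m - k)) (m : ℕ) (hm : 4 * m + 2 ≤ n) :
    (1 + X ^ 2) * CoreA_P n h m =
      C (h m 2) * (X ^ 2 + X ^ (n - 4 * m)) + X ^ 3 * CoreA_P n h (m + 1) := by
  obtain ⟨w, hw⟩ : ∃ w, w = n - 4 * m := ⟨_, rfl⟩
  have hw2 : 2 ≤ w := by omega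
  have h0 : h m 0 = 0 := hZ0 m (by omega)
  have h1 : h m 1 = 0 := hZ1 m (by omega)
  have hPw : ∀ k, k ≤ w → h m k = h m (w - k) := by
    intro k hk
    have := hP m k (by omega)
    rw [← hw] at this
    exact this
  have hww : h m w = 0 := by rw [hPw w le_rfl, Nat.sub_self, h0]
  have hw1 : h m (w - 1) = 0 := by
    rw [hPw (w - 1) (by omega), show w - (w - 1) = 1 by omega, h1]
  have hw22 : h m (w - 2) = h m 2 := by
    rw [hPw (w - 2) (by omega), show w - (w - 2) = 2 by omega]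
  ext k
  rw [add_mul, one_mul, coeff_add, coeff_add, coeff_X_pow_mul', coeff_X_pow_mul', coeff_C_mul,
    coeff_add, coeff_X_pow, coeff_X_pow, CoreA_coeff, CoreA_coeff, CoreA_coeff, ← hw,
    show n + 1 - 4 * m = w + 1 by omega, show n + 1 - 4 * (m + 1) = w - 3 by omega]
  rcases Nat.lt_or_ge k 3 with hk3 | hk3
  · have hk : k = 0 ∨ k = 1 ∨ k = 2 := by omega
    rcases hk with rfl | rfl | rfl
    · rw [if_pos (by omega), if_neg (by omega), if_neg (by omega), if_neg (by omega),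
        if_neg (by omega), h0]
      simp
    · rw [if_pos (by omega), if_neg (by omega), if_neg (by omega), if_neg (by omega),
        if_neg (by omega), h1]
      simp
    · rw [if_pos (by omega), if_pos (by omega), if_pos (by omega), if_pos rfl,
        if_neg (show ¬ 3 ≤ 2 by omega), h0]
      by_cases h2w : 2 = w
      · rw [if_pos h2w]
        have : h m 2 = 0 := by
          have h3 := hw22
          rw [← h2w] at h3
          rw [← h3]; exact h0
        rw [this]; simp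
      · rw [if_neg h2w]; simp
  · rw [if_pos (show 2 ≤ k by omega), if_pos (show 3 ≤ k from hk3), if_neg (show ¬ k = 2 by omega)]
    rcases Nat.lt_or_ge k w with hkw | hkw
    · rw [if_pos (by omega), if_pos (by omega), if_neg (by omega), if_pos (by omega), hR m (k - 3),
        show k - 3 + 1 = k - 2 by omega, show k - 3 + 3 = k by omega]
      ring
    · rcases Nat.eq_or_lt_of_le hkw with hkw' | hkw'
      · subst hkw'
        rw [if_pos (by omega), if_pos (by omega), if_pos rfl, if_neg (by omega), hww, hw22]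
        ring
      · rw [if_neg (show ¬ k < w + 1 by omega), if_neg (show ¬ k = w by omega),
          if_neg (show ¬ k - 3 < w - 3 by omega)]
        by_cases hk1 : k = w + 1
        · rw [if_pos (by omega), show k - 2 = w - 1 by omega, hw1]; simp
        · by_cases hk2 : k = w + 2
          · rw [if_pos (by omega), show k - 2 = w by omega, hww]; simp
          · rw [if_neg (by omega)]; simp

private theorem CoreA_zero (n : ℕ) (h : ℕ → ℕ → ZMod 2)
    (hZ0 : ∀ m, 3 * m ≤ n → h m 0 = 0)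
    (hZ1 : ∀ m, 3 * m + 1 ≤ n → h m 1 = 0) (m : ℕ) (hm : n < 4 * m + 2) :
    CoreA_P n h m = 0 := by
  ext k
  rw [CoreA_coeff, coeff_zero]
  split_ifs with hk
  · have : k = 0 ∨ k = 1 := by omega
    rcases this with rfl | rfl
    · exact hZ0 m (by omega)
    · exact hZ1 m (by omega)
  · rfl

private theorem CoreA_ne : (1 + X ^ 2 : (ZMod 2)[X]) ≠ 0 := by
  intro h
  have := congrArg (fun f : (ZMod 2)[X] => f.coeff 0) h
  simp at this

private theorem CoreA_down (n : ℕ) (h : ℕ → ℕ → ZMod 2)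
    (hR : ∀ m k, h (m + 1) k = h m (k + 1) + h m (k + 3))
    (hZ0 : ∀ m, 3 * m ≤ n → h m 0 = 0)
    (hZ1 : ∀ m, 3 * m + 1 ≤ n → h m 1 = 0)
    (hP : ∀ m k, 4 * m + k ≤ n → h m k = h m (n - 4 * m - k)) (j : ℕ)
    (hj : ∀ m, j ≤ m → 4 * m + 2 ≤ n → h m 2 = 0) :
    ∀ d m, j ≤ m → n + 1 - m = d → CoreA_P n h m = 0 := by
  intro d
  induction d with
  | zero =>
    intro m _ hd
    exact CoreA_zero n h hZ0 hZ1 m (by omega)
  | succ d ih =>
    intro m hm hd
    by_cases h2 : 4 * m + 2 ≤ n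
    · have h3 := CoreA_rec n h hR hZ0 hZ1 hP m h2
      rw [hj m hm h2, ih (m + 1) (by omega) (by omega)] at h3
      simp only [map_zero, zero_mul, mul_zero, add_zero] at h3
      rcases mul_eq_zero.1 h3 with h4 | h4
      · exact absurd h4 CoreA_ne
      · exact h4
    · exact CoreA_zero n h hZ0 hZ1 m (by omega)

private theorem CoreA_iter (n : ℕ) (h : ℕ → ℕ → ZMod 2)
    (hR : ∀ m k, h (m + 1) k = h m (k + 1) + h m (k + 3))
    (hZ0 : ∀ m, 3 * m ≤ n → h m 0 = 0)
    (hZ1 : ∀ m, 3 * m + 1 ≤ n → h m 1 = 0)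
    (hP : ∀ m k, 4 * m + k ≤ n → h m k = h m (n - 4 * m - k)) (j : ℕ) (hj : 4 * j + 2 ≤ n) :
    ∀ i, i ≤ j + 1 → (1 + X ^ 2) ^ i * CoreA_P n h 0 =
      (∑ l ∈ range i, C (h l 2) * X ^ (3 * l) * (1 + X ^ 2) ^ (i - 1 - l) *
        (X ^ 2 + X ^ (n - 4 * l))) + X ^ (3 * i) * CoreA_P n h i := by
  intro i
  induction i with
  | zero => intro _; simp
  | succ i ih =>
    intro hi
    have h1 := ih (by omega)
    have h2 := CoreA_rec n h hR hZ0 hZ1 hP i (by omega)
    rw [pow_succ', mul_assoc, h1, mul_add, sum_range_succ, mul_sum]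
    have h3 : ∑ l ∈ range i, (1 + X ^ 2) * (C (h l 2) * X ^ (3 * l) * (1 + X ^ 2) ^ (i - 1 - l) *
        (X ^ 2 + X ^ (n - 4 * l))) =
        ∑ l ∈ range i, C (h l 2) * X ^ (3 * l) * (1 + X ^ 2) ^ (i + 1 - 1 - l) *
        (X ^ 2 + X ^ (n - 4 * l)) := by
      refine sum_congr rfl fun l hl => ?_
      have hl' := mem_range.1 hl
      rw [show i + 1 - 1 - l = (i - 1 - l) + 1 by omega, pow_succ]
      ring
    have h4 : (1 + X ^ 2) * (X ^ (3 * i) * CoreA_P n h i) =
        X ^ (3 * i) * ((1 + X ^ 2) * CoreA_P n h i) := by ring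
    rw [h3, h4, h2, show i + 1 - 1 - i = 0 by omega, pow_zero]
    ring

theorem coreA (n : ℕ) (h : ℕ → ℕ → ZMod 2)
    (hR : ∀ m k, h (m + 1) k = h m (k + 1) + h m (k + 3))
    (hZ0 : ∀ m, 3 * m ≤ n → h m 0 = 0)
    (hZ1 : ∀ m, 3 * m + 1 ≤ n → h m 1 = 0)
    (hP : ∀ m k, 4 * m + k ≤ n → h m k = h m (n - 4 * m - k)) :
    (∀ k, k ≤ n → h 0 k = 0) ∨
      ∃ j, 10 * j + 8 ≤ n ∧ h j 2 = 1 ∧ ∀ k, k + 4 ≤ n - 4 * j → h (j + 1) k = 0 := by
  classical
  by_cases hex : ∃ m, 4 * m + 2 ≤ n ∧ h m 2 = 1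
  swap
  · left
    intro k hk
    have h1 : CoreA_P n h 0 = 0 := by
      refine CoreA_down n h hR hZ0 hZ1 hP 0 (fun m _ h2 => ?_) _ 0 le_rfl rfl
      rcases z2 (h m 2) with h3 | h3
      · exact h3
      · exact absurd ⟨m, h2, h3⟩ hex
    have h2 := CoreA_coeff n h 0 k
    rw [h1, coeff_zero, if_pos (by omega)] at h2
    exact h2.symm
  right
  obtain ⟨m0, hm0⟩ := hex
  set S := (range (n + 1)).filter (fun m => 4 * m + 2 ≤ n ∧ h m 2 = 1) with hS
  have hSne : S.Nonempty := ⟨m0, mem_filter.2 ⟨mem_range.2 (by omega), hm0⟩⟩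
  obtain ⟨j, hj, hjmax⟩ := exists_max_image S id hSne
  have hj' := (mem_filter.1 hj).2
  obtain ⟨hj4, hj2⟩ := hj'
  have hgt : ∀ m, j + 1 ≤ m → 4 * m + 2 ≤ n → h m 2 = 0 := by
    intro m hm h2
    rcases z2 (h m 2) with h3 | h3
    · exact h3
    · have h4 := hjmax m (mem_filter.2 ⟨mem_range.2 (by omega), h2, h3⟩)
      simp only [id] at h4
      omega
  have hPj1 : CoreA_P n h (j + 1) = 0 :=
    CoreA_down n h hR hZ0 hZ1 hP (j + 1) hgt _ (j + 1) le_rfl rfl
  obtain ⟨w, hw⟩ : ∃ w, w = n - 4 * j := ⟨_, rfl⟩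
  have hj0 : h j 0 = 0 := hZ0 j (by omega)
  have hj1 : h j 1 = 0 := hZ1 j (by omega)
  have hPw : ∀ k, k ≤ w → h j k = h j (w - k) := by
    intro k hk
    have := hP j k (by omega)
    rw [← hw] at this
    exact this
  have h01 : (0 : ZMod 2) ≠ 1 := by decide
  have hw4 : 4 ≤ w := by
    by_contra hlt
    have h23 : w = 2 ∨ w = 3 := by omega
    rcases h23 with h2 | h3
    · have := hPw 2 (by omega)
      rw [show w - 2 = 0 by omega, hj0, hj2] at this
      exact h01 this.symm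
    · have := hPw 2 (by omega)
      rw [show w - 2 = 1 by omega, hj1, hj2] at this
      exact h01 this.symm
  have hnext : ∀ k, k + 4 ≤ w → h (j + 1) k = 0 := by
    intro k hk
    have h2 := CoreA_coeff n h (j + 1) k
    rw [hPj1, coeff_zero, if_pos (by omega)] at h2
    exact h2.symm
  have hstep : ∀ k, k + 4 ≤ w → h j (k + 3) = h j (k + 1) := by
    intro k hk
    have h1 := hnext k hk
    rw [hR] at h1
    exact (eq_of_add h1).symm
  have hval : ∀ i, (2 * i + 1 < w → h j (2 * i + 1) = 0) ∧ (2 * i + 2 < w → h j (2 * i + 2) = 1) := by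
    intro i
    induction i with
    | zero => exact ⟨fun _ => hj1, fun _ => hj2⟩
    | succ i ih =>
      refine ⟨fun hi => ?_, fun hi => ?_⟩
      · have := hstep (2 * i) (by omega)
        rw [show 2 * (i + 1) + 1 = 2 * i + 3 by ring, this]
        exact ih.1 (by omega)
      · have := hstep (2 * i + 1) (by omega)
        rw [show 2 * (i + 1) + 2 = 2 * i + 1 + 3 by ring, this]
        exact ih.2 (by omega)
  have hwe : ∃ u, w = 2 * u := by
    rcases Nat.even_or_odd' w with ⟨u, hu | hu⟩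
    · exact ⟨u, hu⟩
    · exfalso
      have h1 := hPw (w - 1) (by omega)
      rw [show w - (w - 1) = 1 by omega, hj1] at h1
      have h2 := (hval (u - 1)).2 (by omega)
      rw [show 2 * (u - 1) + 2 = w - 1 by omega, h1] at h2
      exact h01 h2
  obtain ⟨u, hu⟩ := hwe
  have hjw : h j w = 0 := by rw [hPw w le_rfl, Nat.sub_self, hj0]
  have hjw2 : h j (w - 2) = 1 := by
    have h2 := (hval (u - 2)).2 (by omega)
    rwa [show 2 * (u - 2) + 2 = w - 2 by omega] at h2
  have hdiag : ∀ l k, (k + 3 * (l + 1) < w → h (j + (l + 1)) k = 0) ∧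
      (k + 3 * (l + 1) = w → h (j + (l + 1)) k = 1) := by
    intro l
    induction l with
    | zero =>
      intro k
      refine ⟨fun hk => hnext k (by omega), fun hk => ?_⟩
      rw [show j + (0 + 1) = j + 1 by ring, hR, show k + 1 = w - 2 by omega,
        show k + 3 = w by omega, hjw2, hjw, add_zero]
    | succ l ih =>
      intro k
      refine ⟨fun hk => ?_, fun hk => ?_⟩
      · rw [show j + (l + 1 + 1) = (j + (l + 1)) + 1 by ring, hR, (ih (k + 1)).1 (by omega),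
          (ih (k + 3)).1 (by omega), add_zero]
      · rw [show j + (l + 1 + 1) = (j + (l + 1)) + 1 by ring, hR, (ih (k + 1)).1 (by omega),
          (ih (k + 3)).2 (by omega), zero_add]
  have hn : n = 4 * j + w := by omega
  have hmod : w % 3 = 2 := by
    have h3 : w % 3 = 0 ∨ w % 3 = 1 ∨ w % 3 = 2 := by omega
    rcases h3 with h3 | h3 | h3
    · exfalso
      have h4 := (hdiag (w / 3 - 1) 0).2 (by omega)
      have h5 := hZ0 (j + (w / 3 - 1 + 1)) (by omega)
      rw [h5] at h4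
      exact h01 h4
    · exfalso
      have h4 := (hdiag (w / 3 - 1) 1).2 (by omega)
      have h5 := hZ1 (j + (w / 3 - 1 + 1)) (by omega)
      rw [h5] at h4
      exact h01 h4
    · exact h3
  have hX : (1 + X ^ 2 : (ZMod 2)[X]) = (1 + X) ^ 2 := by
    have h2 : (2 : (ZMod 2)[X]) = 0 := by
      have : (2 : (ZMod 2)[X]) = C 2 := by rfl
      rw [this, show (2 : ZMod 2) = 0 by decide, map_zero]
    calc (1 + X ^ 2 : (ZMod 2)[X]) = 1 + X ^ 2 + 2 * X := by rw [h2]; ring
      _ = (1 + X) ^ 2 := by ring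
  have hit := CoreA_iter n h hR hZ0 hZ1 hP j hj4 (j + 1) le_rfl
  rw [hPj1, mul_zero, add_zero] at hit
  have hfac : ∑ l ∈ range (j + 1), C (h l 2) * X ^ (3 * l) * (1 + X ^ 2) ^ (j + 1 - 1 - l) *
        (X ^ 2 + X ^ (n - 4 * l)) =
      X ^ 2 * ∑ l ∈ range (j + 1), C (h l 2) * X ^ (3 * l) * (1 + X : (ZMod 2)[X]) ^ (2 * (j - l)) *
        (1 + X ^ (n - 2 - 4 * l)) := by
    rw [mul_sum]
    refine sum_congr rfl fun l hl => ?_
    have hl' := mem_range.1 hl
    rw [show j + 1 - 1 - l = j - l by omega, hX, ← pow_mul,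
      show n - 4 * l = 2 + (n - 2 - 4 * l) by omega, pow_add]
    ring
  rw [hfac] at hit
  have hdvd : ((1 + X) ^ (2 * j + 2) : (ZMod 2)[X]) ∣
      ∑ l ∈ range (j + 1), C (h l 2) * X ^ (3 * l) * (1 + X) ^ (2 * (j - l)) *
        (1 + X ^ (n - 2 - 4 * l)) := by
    have h1 : ((1 + X) ^ (2 * j + 2) : (ZMod 2)[X]) ∣ X ^ 2 * ∑ l ∈ range (j + 1), C (h l 2) *
        X ^ (3 * l) * (1 + X) ^ (2 * (j - l)) * (1 + X ^ (n - 2 - 4 * l)) := by
      rw [← hit, hX, ← pow_mul, show 2 * (j + 1) = 2 * j + 2 by ring]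
      exact dvd_mul_right _ _
    have hcop : IsCoprime (1 + X : (ZMod 2)[X]) X := ⟨1, -1, by ring⟩
    exact (hcop.pow (m := 2 * j + 2) (n := 2)).dvd_of_dvd_mul_left h1
  obtain ⟨e, o, ho, he⟩ := Nat.exists_eq_two_pow_mul_odd (n := n - 2 - 4 * j) (by omega)
  have hv := val_lemma j (n - 2) (fun l => h l 2) (by omega) hj2 hdvd e o ho he
  have h3o : 3 ∣ o := by
    have h1 : 3 ∣ 2 ^ e * o := by
      rw [← he]; omega
    rcases (Nat.Prime.dvd_mul Nat.prime_three).1 h1 with h2 | h2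
    · have := Nat.prime_three.dvd_of_dvd_pow h2
      omega
    · exact h2
  have ho3 : 3 ≤ o := Nat.le_of_dvd ho.pos h3o
  have hfin : 3 * 2 ^ e ≤ n - 2 - 4 * j := by
    rw [he, mul_comm]
    exact Nat.mul_le_mul_left _ ho3
  refine ⟨j, by omega, hj2, fun k hk => hnext k (by omega)⟩

end Pool.Agent.DYM
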