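import Pool.Agent.DYM.CoreA

/-!
# CoreB (uses `coreA` of CoreA.lean as a black box)

Plan. Everything in (ZMod 2)[X], Delta = X (1+X)^2 = X + X^3. Put h m k = c (Delta^m * X^k)
(= c (X^(m+k) (1+X)^(2m))). hR of coreA: Delta * X^k = X^(k+1) + X^(k+3). hZ0 = hb0, hZ1 = hb1,
hP = ha with i = m + k, k := 2 m (n - i - 2m = n - 3m - k = m + (n - 4m - k)). So coreA applies. In
the first alternative we are done (Delta^0 X^k = X^k). Otherwise we have j with 10 j + 8 <= n,
h j 2 = 1, and h (j+1) k = 0 for k + 4 <= n - 4 j (in particular for k <= 2 j + 1 and more: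
n - 4 j >= 6 j + 8, so for all k <= 6 j + 4). Contradiction as follows.
(1) hE with m = 2 j + 2, i <= j (2 m + i = 4 j + 4 + i <= 5 j + 4 <= n): c ((1+X)^(4j+4) G i) =
  c ((1+X)^(2j+2) X^(2j+2+i)) = c (Delta^(j+1) X^(j+1+i)) = h (j+1) (j+1+i) = 0.
(2) G i is monic of degree i, so X^j is a linear combination of G 0, ..., G j (induction), hence
  c ((1+X)^(4j+4) * f) = 0 for all f with natDegree f <= j. Take f = X^j:
  (1+X)^(4j+4) X^j = Delta^j * (1+X)^(2j+4) = Delta^j * (1+X^2)^(j+2).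
(3) For every q: (1+X^2)^(q+1) = 1 + X^2 + Delta * g_q with natDegree g_q <= 2 q - 1 (g_0 = 0,
  g_(q+1) = X + (1+X^2) g_q; note (1+X^2)(1+X^2) = (1+X^2) + X^2 (1+X^2) and X^2(1+X^2) = X * Delta).
  With q = j+1: 0 = c (Delta^j (1 + X^2 + Delta g)) = h j 0 + h j 2 + c (Delta^(j+1) g), and
  c (Delta^(j+1) g) = sum of h (j+1) k, k <= 2 j + 1, = 0; h j 0 = 0 (hb0); so h j 2 = 0.
-/

set_option autoImplicit false

namespace Pool.Agent.DYM

open Finset Polynomial

private theorem CoreB_sq : ((1 : (ZMod 2)[X]) + X) ^ 2 = 1 + X ^ 2 := by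
  rw [CharTwo.add_sq, one_pow]

private theorem CoreB_smul (c : (ZMod 2)[X] →ₗ[ZMod 2] ZMod 2) (A f : (ZMod 2)[X]) (a : ZMod 2) :
    c (A * (C a * f)) = a * c (A * f) := by
  have h1 : A * (C a * f) = a • (A * f) := by
    rw [Polynomial.smul_eq_C_mul]
    ring
  rw [h1, map_smul, smul_eq_mul]

private theorem CoreB_low (c : (ZMod 2)[X] →ₗ[ZMod 2] ZMod 2) (G : ℕ → (ZMod 2)[X])
    (hG : ∀ i, (G i).Monic ∧ (G i).natDegree = i) (A : (ZMod 2)[X]) (j : ℕ)
    (h0 : ∀ i, i ≤ j → c (A * G i) = 0) :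
    ∀ d, d ≤ j + 1 → ∀ f : (ZMod 2)[X], f.degree < (d : ℕ) → c (A * f) = 0 := by
  intro d
  induction d with
  | zero =>
    intro _ f hf
    have h1 : f = 0 := by
      rw [Polynomial.degree_lt_iff_coeff_zero] at hf
      ext m
      rw [hf m (Nat.zero_le m), Polynomial.coeff_zero]
    rw [h1, mul_zero, map_zero]
  | succ d ih =>
    intro hd f hf
    have h1 : (f - C (f.coeff d) * G d).degree < (d : ℕ) := by
      rw [Polynomial.degree_lt_iff_coeff_zero]
      intro m hm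
      rcases Nat.lt_or_ge d m with h | h
      · rw [Polynomial.coeff_sub, Polynomial.coeff_C_mul]
        have h2 : f.coeff m = 0 := by
          rw [Polynomial.degree_lt_iff_coeff_zero] at hf
          exact hf m h
        have h3 : (G d).coeff m = 0 :=
          Polynomial.coeff_eq_zero_of_natDegree_lt (by rw [(hG d).2]; exact h)
        rw [h2, h3, mul_zero, sub_zero]
      · have hmd : m = d := le_antisymm h hm
        subst hmd
        rw [Polynomial.coeff_sub, Polynomial.coeff_C_mul]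
        have h3 : (G m).coeff m = 1 := by
          have h4 := (hG m).1.coeff_natDegree
          rwa [(hG m).2] at h4
        rw [h3, mul_one, sub_self]
    have h2 := ih (by omega) _ h1
    have h3 : A * f = A * (f - C (f.coeff d) * G d) + A * (C (f.coeff d) * G d) := by ring
    rw [h3, map_add, h2, CoreB_smul, h0 d (by omega), mul_zero, add_zero]

private theorem CoreB_pow (q : ℕ) : ∃ g : (ZMod 2)[X], g.natDegree ≤ 2 * q ∧
    ((1 : (ZMod 2)[X]) + X ^ 2) ^ (q + 1) = 1 + X ^ 2 + X * (1 + X ^ 2) * g := by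
  induction q with
  | zero => exact ⟨0, by simp, by ring⟩
  | succ q ih =>
    obtain ⟨g, hg, he⟩ := ih
    refine ⟨X + (1 + X ^ 2) * g, ?_, ?_⟩
    · refine (Polynomial.natDegree_add_le _ _).trans (max_le ?_ ?_)
      · exact Polynomial.natDegree_X_le.trans (by omega)
      · refine Polynomial.natDegree_mul_le.trans ?_
        have h1 : ((1 : (ZMod 2)[X]) + X ^ 2).natDegree ≤ 2 := by
          refine (Polynomial.natDegree_add_le _ _).trans (max_le ?_ ?_)
          · rw [Polynomial.natDegree_one]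
            omega
          · exact Polynomial.natDegree_X_pow_le 2
        omega
    · rw [pow_succ, he]
      ring

theorem core (n : ℕ) (c : (ZMod 2)[X] →ₗ[ZMod 2] ZMod 2) (G : ℕ → (ZMod 2)[X])
    (hG : ∀ i, (G i).Monic ∧ (G i).natDegree = i)
    (ha : ∀ i k, i + k ≤ n → c (X ^ i * (1 + X) ^ k) = c (X ^ (n - i - k) * (1 + X) ^ k))
    (hb0 : ∀ m, 3 * m ≤ n → c (X ^ m * (1 + X) ^ (2 * m)) = 0)
    (hb1 : ∀ m, 3 * m + 1 ≤ n → c (X ^ (m + 1) * (1 + X) ^ (2 * m)) = 0)
    (hE : ∀ m i, 2 * m + i ≤ n → c ((1 + X) ^ (2 * m) * G i) = c ((1 + X) ^ m * X ^ (m + i))) :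
    ∀ k, k ≤ n → c (X ^ k) = 0 := by
  obtain ⟨D, hD⟩ : ∃ D : (ZMod 2)[X], D = X * (1 + X) ^ 2 := ⟨_, rfl⟩
  have hD2 : D = X * (1 + X ^ 2) := by rw [hD, CoreB_sq]
  have hform : ∀ m k, D ^ m * X ^ k = X ^ (m + k) * (1 + X) ^ (2 * m) := by
    intro m k
    rw [hD, mul_pow, ← pow_mul, pow_add]
    ring
  have hR : ∀ m k, c (D ^ (m + 1) * X ^ k) = c (D ^ m * X ^ (k + 1)) + c (D ^ m * X ^ (k + 3)) := by
    intro m k
    rw [← map_add]
    congr 1
    rw [pow_succ, hD2]
    ring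
  have hZ0 : ∀ m, 3 * m ≤ n → c (D ^ m * X ^ 0) = 0 := by
    intro m hm
    rw [hform, add_zero]
    exact hb0 m hm
  have hZ1 : ∀ m, 3 * m + 1 ≤ n → c (D ^ m * X ^ 1) = 0 := by
    intro m hm
    rw [hform]
    exact hb1 m hm
  have hP : ∀ m k, 4 * m + k ≤ n → c (D ^ m * X ^ k) = c (D ^ m * X ^ (n - 4 * m - k)) := by
    intro m k hmk
    rw [hform, hform, ha (m + k) (2 * m) (by omega)]
    have h1 : n - (m + k) - 2 * m = m + (n - 4 * m - k) := by omega
    rw [h1]
  rcases coreA n (fun m k => c (D ^ m * X ^ k)) hR hZ0 hZ1 hP with h | ⟨j, hj, hj2, hj0⟩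
  · intro k hk
    have h1 := h k hk
    simpa using h1
  · exfalso
    have hj2 : c (D ^ j * X ^ 2) = 1 := hj2
    have hj0 : ∀ k, k + 4 ≤ n - 4 * j → c (D ^ (j + 1) * X ^ k) = 0 := hj0
    have h1 : ∀ i, i ≤ j → c ((1 + X) ^ (2 * (2 * j + 2)) * G i) = 0 := by
      intro i hi
      rw [hE (2 * j + 2) i (by omega)]
      have h2 : ((1 : (ZMod 2)[X]) + X) ^ (2 * j + 2) * X ^ (2 * j + 2 + i) =
          D ^ (j + 1) * X ^ (j + 1 + i) := by
        rw [hform]
        have h3 : j + 1 + (j + 1 + i) = 2 * j + 2 + i := by ring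
        have h4 : 2 * (j + 1) = 2 * j + 2 := by ring
        rw [h3, h4, mul_comm]
      rw [h2]
      exact hj0 _ (by omega)
    have h2 := CoreB_low c G hG _ j h1 (j + 1) le_rfl (X ^ j) (by
      rw [Polynomial.degree_X_pow]
      exact_mod_cast Nat.lt_succ_self j)
    obtain ⟨g, hg, he⟩ := CoreB_pow (j + 1)
    have h3 : ((1 : (ZMod 2)[X]) + X) ^ (2 * (2 * j + 2)) * X ^ j =
        D ^ j * X ^ 0 + D ^ j * X ^ 2 + D ^ (j + 1) * g := by
      have h4 : ((1 : (ZMod 2)[X]) + X) ^ (2 * (2 * j + 2)) * X ^ j =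
          D ^ j * ((1 + X) ^ 2) ^ (j + 1 + 1) := by
        rw [hD, mul_pow, ← pow_mul, ← pow_mul]
        have h5 : 2 * (2 * j + 2) = 2 * j + 2 * (j + 1 + 1) := by ring
        rw [h5, pow_add]
        ring
      rw [h4, CoreB_sq, he, ← hD2, pow_succ]
      ring
    rw [h3, map_add, map_add, hZ0 j (by omega), hj2, zero_add] at h2
    have h4 : c (D ^ (j + 1) * g) = 0 := by
      rw [Polynomial.as_sum_range_C_mul_X_pow g, Finset.mul_sum, map_sum]
      refine Finset.sum_eq_zero fun k hk => ?_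
      rw [Finset.mem_range] at hk
      rw [CoreB_smul, hj0 k (by omega), mul_zero]
    rw [h4, add_zero] at h2
    exact one_ne_zero h2

end Pool.Agent.DYM
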