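import Mathlib

/-!
Steinhaus graphs: basic definitions and the pairing between strings and polynomials over F_2.

* `entry s i j` (i < j) : the entry of the Steinhaus matrix generated by the string `s`.
* `mm x a b` : the entry `x^(a)_b` of the difference table, `mm x a b = sum_i C(a,i) x (b+i)`;
  `entry s i j = mm s i (j-i)` for `i < j`.
* `Lam x` : the linear functional on polynomials with `Lam x (X^j) = x j`; then
  `Lam x (X^b (1+X)^a) = mm x a b`.
* `Tri y d` : the triangular array `mm y a b`, `a+b <= d`, depends only on the multiset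
  `{a, b, d-a-b}`.
-/

set_option autoImplicit false

namespace Pool.Agent.DYM

open Finset Polynomial

theorem z2 (x : ZMod 2) : x = 0 ∨ x = 1 := by revert x; decide

theorem add_self (x : ZMod 2) : x + x = 0 := by revert x; decide

theorem eq_of_add {x y : ZMod 2} (h : x + y = 0) : x = y := by revert x y; decide

theorem add_of_eq {x y : ZMod 2} (h : x = y) : x + y = 0 := by subst h; exact add_self x

/-- The part above the diagonal of the Steinhaus matrix generated by `s`. -/
def entry (s : ℕ → ZMod 2) : ℕ → ℕ → ZMod 2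
  | 0, j => s j
  | i + 1, j => entry s i (j - 1) + entry s i j

/-- The Steinhaus matrix generated by `s 1, s 2, ...`. -/
def mat (s : ℕ → ZMod 2) (i j : ℕ) : ZMod 2 :=
  if i < j then entry s i j else if j < i then entry s j i else 0

/-- The degree of the vertex `i` of the Steinhaus graph on `0, ..., n-1` generated by `s`. -/
def deg (n : ℕ) (s : ℕ → ZMod 2) (i : ℕ) : ℕ := ((range n).filter fun j => mat s i j = 1).card

/-- The difference table of `x`. -/
def mm (x : ℕ → ZMod 2) : ℕ → ℕ → ZMod 2
  | 0, b => x b
  | a + 1, b => mm x a b + mm x a (b + 1)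

@[simp] theorem mm_zero (x : ℕ → ZMod 2) (b : ℕ) : mm x 0 b = x b := rfl

theorem mm_succ (x : ℕ → ZMod 2) (a b : ℕ) : mm x (a + 1) b = mm x a b + mm x a (b + 1) := rfl

theorem entry_eq (s : ℕ → ZMod 2) : ∀ i j, i < j → entry s i j = mm s i (j - i) := by
  intro i
  induction i with
  | zero => intro j _; rfl
  | succ i ih =>
    intro j hj
    show entry s i (j - 1) + entry s i j = mm s (i + 1) (j - (i + 1))
    rw [ih (j - 1) (by omega), ih j (by omega), mm_succ,
      show j - 1 - i = j - (i + 1) by omega, show j - i = j - (i + 1) + 1 by omega]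

theorem mm_add (x y : ℕ → ZMod 2) : ∀ a b, mm (fun j => x j + y j) a b = mm x a b + mm y a b := by
  intro a
  induction a with
  | zero => intro b; rfl
  | succ a ih => intro b; rw [mm_succ, mm_succ, mm_succ, ih, ih]; ring

/-- The functional with `Lam x (X ^ j) = x j`. -/
noncomputable def Lam (x : ℕ → ZMod 2) : (ZMod 2)[X] →ₗ[ZMod 2] ZMod 2 :=
  Polynomial.lsum fun j => LinearMap.toSpanSingleton (ZMod 2) (ZMod 2) (x j)

@[simp] theorem Lam_X_pow (x : ℕ → ZMod 2) (j : ℕ) : Lam x (X ^ j) = x j := by
  rw [← Polynomial.monomial_one_right_eq_X_pow]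
  simp [Lam, Polynomial.lsum_apply, Polynomial.sum_monomial_index]

theorem Lam_mm (x : ℕ → ZMod 2) : ∀ a b, Lam x (X ^ b * (1 + X) ^ a) = mm x a b := by
  intro a
  induction a with
  | zero => intro b; simp
  | succ a ih =>
    intro b
    rw [mm_succ, ← ih, ← ih, ← map_add]
    congr 1
    ring

/-- The triangular array `mm y a b`, `a + b ≤ d`, is symmetric in `a, b, d - a - b`. -/
structure Tri (y : ℕ → ZMod 2) (d : ℕ) : Prop where
  P : ∀ a b, a + b ≤ d → mm y a b = mm y a (d - a - b)
  Q : ∀ a b, a + b ≤ d → mm y a b = mm y (d - a - b) b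

/-- A palindrome has palindromic difference rows. -/
theorem pal_rows {y : ℕ → ZMod 2} {d : ℕ} (h : ∀ j, j ≤ d → y j = y (d - j)) :
    ∀ a b, a + b ≤ d → mm y a b = mm y a (d - a - b) := by
  intro a
  induction a with
  | zero => intro b hb; simpa using h b (by omega)
  | succ a ih =>
    intro b hb
    rw [mm_succ, mm_succ, ih b (by omega), ih (b + 1) (by omega),
      show d - a - b = d - (a + 1) - b + 1 by omega,
      show d - a - (b + 1) = d - (a + 1) - b by omega, add_comm]

namespace Tri

variable {y : ℕ → ZMod 2} {d : ℕ}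

/-- swap of the first two arguments -/
theorem S (h : Tri y d) {a b : ℕ} (hab : a + b ≤ d) : mm y a b = mm y b a := by
  rw [h.P a b hab, h.Q a (d - a - b) (by omega), h.P (d - a - (d - a - b)) (d - a - b) (by omega)]
  congr 1 <;> omega

theorem row0 (h : Tri y d) {a : ℕ} (ha : a ≤ d) : mm y a 0 = y a := by
  rw [h.S (by omega)]; rfl

/-- the middle of a palindromic row with positive index vanishes -/
theorem mid (h : Tri y d) {a b : ℕ} (ha : 1 ≤ a) (hab : a + 2 * b = d) : mm y a b = 0 := by
  obtain ⟨a, rfl⟩ : ∃ a', a = a' + 1 := ⟨a - 1, by omega⟩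
  rw [mm_succ, h.P a b (by omega), show d - a - b = b + 1 by omega]
  exact add_self _

theorem zero (h : Tri y d) (hd : 1 ≤ d) : y 0 = 0 := by
  have h1 := h.mid (a := d) (b := 0) hd (by omega)
  rw [h.S (by omega), mm_zero, ] at h1
  have h2 := h.P 0 0 (by omega)
  simp only [mm_zero, Nat.sub_zero] at h2
  rw [h2, h1]

end Tri

end Pool.Agent.DYM
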