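import Pool.Agent.DYM.CoreB

/-!
# Func (uses `core` of CoreB.lean as a black box)

Plan. If D = 0: y 0 = 0 from h1. Let D >= 1, n = D - 1, L = Lam y, t = X + X^2 = X (1+X).
Note `Lam y (X^b (1+X)^a) = mm y a b` (Lam_mm). All degrees below are <= 2 D.
(1) L (f.comp t) = 0 for natDegree f <= D: h1 (t^a = X^a (1+X)^a) and linearity.
(2) L (F.comp (1+X)) = L F for natDegree F <= 2 D: enough for F = X^b (1+X)^a or by
  the basis t^a, X t^a (2 a + 1 <= 2 D): L ((1+X) t^a) = L (X t^a) + L (t^a).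
(3) E: L (X g(t)) = L ((1+X) g(X^2)) for natDegree g <= D - 1: h3 on g = X^m
  (X t^m = X^(m+1) (1+X)^m).
(4) reflection: L (reflect (2D) F) = L F for natDegree F <= 2 D by h2; with Polynomial.reflect_mul:
  L (X^a (1+X)^b (1+X+X^2)^p) = L (X^(2D-a-b-2p) (1+X)^b (1+X+X^2)^p) if a + b + 2 p <= 2 D.
  [1+t = 1+X+X^2]
Put c f = L (X * f.comp (1+X+X^2)) (a linear map; f.comp of the polynomial 1 + t), G i = F (2i+1)
composed with (1+X), where F 0 = 0, F 1 = 1, F (k+2) = F (k+1) + X * F k. F (2i+1) is monic of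
degree i (and F (2i+2) has degree <= i), so G i is monic of degree i;
X^k = X * (F k).comp t + t * (F (k-1)).comp t (k >= 1), and, X replaced by 1+X,
(1+X)^k = (1+X) * (F k).comp t + t * (F (k-1)).comp t.
(5) for i + k <= n : c (X^i (1+X)^k) = L (X (1+t)^i t^k) = [by (3)] L ((1+X)(1+X^2)^i X^(2k))
  = L ((1+X)^(2i+1) X^(2k)) = [by (2)] L (X^(2i+1) (1+X)^(2k)) = mm y (2k) (2i+1);
  h2 gives its palindromy (pal_rows in Defs): mm y (2k) (2i+1) = mm y (2k) (2D-2k-2i-1): this is `ha`.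
(6) hb0: by (5) c (X^m (1+X)^(2m)) = c (X^(n-3m) (1+X)^(2m)) = L (X G), G = t^(2m) (1+t)^(n-3m)
  = [by (2)] L ((1+X) G) = [by (4) with a = 2m, b = 2m+1, p = n-3m: 2D-a-b-2p = 2m+1] L (t G) = 0 by (1).
(7) hb1: c (X^(m+1) (1+X)^(2m)) = c (X^(n-3m-1) (1+X)^(2m)) = L (X G), G = t^(2m) (1+t)^(n-3m-1);
  X = X^2 + t, L (t G) = 0, so = L (X^2 G) = [by (2)] L ((1+X)^2 G) = [by (4), a = 2m, b = 2m+2,
  p = n-3m-1 : 2D-a-b-2p = 2m+2] L (t^2 G) = 0.
(8) hE: c ((1+X)^m X^(m+i)) = L (X t^m (1+t)^(m+i)) = [by (3)] L ((1+X) X^(2m) (1+X)^(2m+2i))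
  = L (t^(2m) (1+X)^(2i+1)) = L (t^(2m) ((1+X) F_(2i+1)(t) + t F_(2i)(t))) = [by (1)]
  L ((1+X) t^(2m) F_(2i+1)(t)) = [by (1)] L (X t^(2m) F_(2i+1)(t)) = c ((1+X)^(2m) * G i)
  [(1+X).comp (1+t) = t, (F.comp (1+X)).comp (1+t) = F.comp t].
core gives c (X^k) = 0 for k <= n, so c f = 0 for natDegree f <= n, so L (X g(t)) = 0 for
natDegree g <= D-1 (g = f.comp (1+X)), with (1): L (X t^a) = 0, L (t^a) = 0, so L = 0 on natDegree <= 2 D
(X^k = X F_k(t) + t F_(k-1)(t), degree of F_k at most (k-1)/2).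
-/

set_option autoImplicit false

namespace Pool.Agent.DYM

open Finset Polynomial

private noncomputable def Func_F : ℕ → (ZMod 2)[X]
  | 0 => 0
  | 1 => 1
  | (k + 2) => Func_F (k + 1) + X * Func_F k

/-- `t = X + X ^ 2` -/
private noncomputable abbrev Func_t : (ZMod 2)[X] := X + X ^ 2

private theorem Func_two : (2 : (ZMod 2)[X]) = 0 := CharTwo.two_eq_zero

private theorem Func_F_succ (k : ℕ) : Func_F (k + 2) = Func_F (k + 1) + X * Func_F k := rfl

private theorem Func_F_deg : ∀ k, (Func_F k).natDegree ≤ (k - 1) / 2 := by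
  intro k
  induction k using Nat.strong_induction_on with
  | _ k ih =>
    match k, ih with
    | 0, _ => simp [Func_F]
    | 1, _ => simp [Func_F]
    | k + 2, ih =>
      rw [Func_F_succ]
      refine (natDegree_add_le _ _).trans (max_le ?_ ?_)
      · have h1 := ih (k + 1) (by omega)
        omega
      · rcases Nat.eq_zero_or_pos k with rfl | hk
        · simp [Func_F]
        · have h1 := ih k (by omega)
          have h2 : (X * Func_F k).natDegree ≤ 1 + (Func_F k).natDegree := by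
            refine natDegree_mul_le.trans ?_
            rw [natDegree_X]
          omega

private theorem Func_F_monic : ∀ i, (Func_F (2 * i + 1)).Monic ∧ (Func_F (2 * i + 1)).natDegree = i := by
  intro i
  induction i with
  | zero => exact ⟨monic_one, natDegree_one⟩
  | succ i ih =>
    have e1 : 2 * (i + 1) + 1 = (2 * i + 1) + 2 := by ring
    rw [e1, Func_F_succ]
    have h1 : (X * Func_F (2 * i + 1)).Monic := monic_X.mul ih.1
    have h2 : (X * Func_F (2 * i + 1)).natDegree = i + 1 := by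
      rw [natDegree_X_mul ih.1.ne_zero, ih.2]
    have h3 := Func_F_deg (2 * i + 1 + 1)
    have h4 : (Func_F (2 * i + 1 + 1)).natDegree < (X * Func_F (2 * i + 1)).natDegree := by
      rw [h2]
      omega
    refine ⟨h1.add_of_right (degree_lt_degree h4), ?_⟩
    rw [natDegree_add_eq_right_of_natDegree_lt h4, h2]

private theorem Func_pow (u : (ZMod 2)[X]) (hu : u ^ 2 = u + Func_t) (k : ℕ) :
    u ^ (k + 1) = u * aeval Func_t (Func_F (k + 1)) + Func_t * aeval Func_t (Func_F k) := by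
  induction k with
  | zero => simp [Func_F]
  | succ k ih =>
    have h1 : aeval Func_t (Func_F (k + 1 + 1)) =
        aeval Func_t (Func_F (k + 1)) + Func_t * aeval Func_t (Func_F k) := by
      rw [show k + 1 + 1 = k + 2 from rfl, Func_F_succ, map_add, map_mul, aeval_X]
    rw [h1]
    linear_combination u * ih + aeval Func_t (Func_F (k + 1)) * hu

private theorem Func_powX (k : ℕ) :
    (X : (ZMod 2)[X]) ^ (k + 1) = X * aeval Func_t (Func_F (k + 1)) + Func_t * aeval Func_t (Func_F k) :=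
  Func_pow X (by linear_combination (-X) * Func_two) k

private theorem Func_powX1 (k : ℕ) :
    (1 + X : (ZMod 2)[X]) ^ (k + 1) =
      (1 + X) * aeval Func_t (Func_F (k + 1)) + Func_t * aeval Func_t (Func_F k) :=
  Func_pow (1 + X) (by ring) k

private theorem Func_ext (N : ℕ) (φ ψ : (ZMod 2)[X] →ₗ[ZMod 2] ZMod 2)
    (h : ∀ i, i ≤ N → φ (X ^ i) = ψ (X ^ i)) (f : (ZMod 2)[X]) (hf : f.natDegree ≤ N) :
    φ f = ψ f := by
  rw [f.as_sum_range' (N + 1) (Nat.lt_succ_of_le hf), map_sum, map_sum]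
  refine Finset.sum_congr rfl fun i hi => ?_
  rw [← smul_X_eq_monomial, map_smul, map_smul, h i (Nat.lt_succ_iff.1 (Finset.mem_range.1 hi))]

private theorem Func_tpow (a : ℕ) : Func_t ^ a = X ^ a * (1 + X) ^ a := by
  rw [← mul_pow]
  congr 1
  ring

private theorem Func_av (u : (ZMod 2)[X]) (i k : ℕ) :
    aeval u (X ^ i * (1 + X : (ZMod 2)[X]) ^ k) = u ^ i * (1 + u) ^ k := by
  rw [map_mul, map_pow, map_pow, map_add, map_one, aeval_X]

/-- `f ↦ Lam y (u * f(v))` -/
private noncomputable def Func_M (y : ℕ → ZMod 2) (u v : (ZMod 2)[X]) : (ZMod 2)[X] →ₗ[ZMod 2] ZMod 2 where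
  toFun f := Lam y (u * aeval v f)
  map_add' f g := by rw [map_add (aeval v), mul_add, map_add]
  map_smul' a f := by
    rw [map_smul (aeval v), mul_smul_comm, map_smul]
    rfl

private theorem Func_M_apply (y : ℕ → ZMod 2) (u v f : (ZMod 2)[X]) :
    Func_M y u v f = Lam y (u * aeval v f) := rfl

private theorem Func_one {D : ℕ} {y : ℕ → ZMod 2} (h1 : ∀ a, a ≤ D → mm y a a = 0)
    (f : (ZMod 2)[X]) (hf : f.natDegree ≤ D) : Lam y (aeval Func_t f) = 0 := by
  have h := Func_ext D (Func_M y 1 Func_t) 0 (by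
    intro i hi
    rw [Func_M_apply, one_mul, map_pow, aeval_X, Func_tpow, Lam_mm, h1 i hi]
    rfl) f hf
  rw [Func_M_apply, one_mul] at h
  exact h

private theorem Func_zero {D : ℕ} {y : ℕ → ZMod 2} (h1 : ∀ a, a ≤ D → mm y a a = 0)
    (a p : ℕ) (hap : a + p ≤ D) : Lam y (Func_t ^ a * (1 + Func_t) ^ p) = 0 := by
  have h2 := Func_one h1 (X ^ a * (1 + X) ^ p) (by
    refine natDegree_mul_le.trans ?_
    have h3 : ((1 + X : (ZMod 2)[X]) ^ p).natDegree ≤ p := by
      refine natDegree_pow_le.trans ?_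
      have h4 : (1 + X : (ZMod 2)[X]).natDegree ≤ 1 := by
        rw [add_comm, ← C_1, natDegree_X_add_C]
      calc p * (1 + X : (ZMod 2)[X]).natDegree ≤ p * 1 := Nat.mul_le_mul_left _ h4
        _ = p := mul_one p
    rw [natDegree_X_pow]
    omega)
  rw [Func_av] at h2
  exact h2

private theorem Func_sub {D : ℕ} {y : ℕ → ZMod 2} (h1 : ∀ a, a ≤ D → mm y a a = 0)
    (f : (ZMod 2)[X]) (hf : f.natDegree ≤ 2 * D) : Lam y (aeval (1 + X) f) = Lam y f := by
  suffices h : ∀ i, i ≤ 2 * D → Func_M y 1 (1 + X) (X ^ i) = Lam y (X ^ i) by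
    have h5 := Func_ext (2 * D) (Func_M y 1 (1 + X)) (Lam y) h f hf
    rw [Func_M_apply, one_mul] at h5
    exact h5
  intro i hi
  rw [Func_M_apply, one_mul, map_pow, aeval_X]
  rcases Nat.eq_zero_or_pos i with rfl | hi0
  · rw [pow_zero, pow_zero]
  · obtain ⟨k, rfl⟩ : ∃ k, i = k + 1 := ⟨i - 1, by omega⟩
    have h2 : (1 + X : (ZMod 2)[X]) ^ (k + 1) = X ^ (k + 1) + aeval Func_t (Func_F (k + 1)) := by
      rw [Func_powX1, Func_powX]
      ring
    rw [h2, map_add, Func_one h1 _ ?_, add_zero]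
    have h3 := Func_F_deg (k + 1)
    omega

private theorem Func_E {D : ℕ} {y : ℕ → ZMod 2}
    (h3 : ∀ m, m + 1 ≤ D → mm y m (m + 1) = y (2 * m) + y (2 * m + 1))
    (g : (ZMod 2)[X]) (hg : g.natDegree + 1 ≤ D) :
    Lam y (X * aeval Func_t g) = Lam y ((1 + X) * aeval (X ^ 2) g) := by
  suffices h : ∀ i, i ≤ D - 1 → Func_M y X Func_t (X ^ i) = Func_M y (1 + X) (X ^ 2) (X ^ i) by
    exact Func_ext (D - 1) (Func_M y X Func_t) (Func_M y (1 + X) (X ^ 2)) h g (by omega)
  intro i hi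
  rw [Func_M_apply, Func_M_apply, map_pow (aeval Func_t), aeval_X, map_pow (aeval (X ^ 2)), aeval_X,
    Func_tpow]
  have e1 : (X : (ZMod 2)[X]) * (X ^ i * (1 + X) ^ i) = X ^ (i + 1) * (1 + X) ^ i := by ring
  have e2 : (1 + X : (ZMod 2)[X]) * (X ^ 2) ^ i = X ^ (2 * i) + X ^ (2 * i + 1) := by
    rw [← pow_mul]
    ring
  rw [e1, e2, Lam_mm, map_add, Lam_X_pow, Lam_X_pow]
  exact h3 i (by omega)

private theorem Func_sq : (1 + X ^ 2 : (ZMod 2)[X]) = (1 + X) ^ 2 := by
  linear_combination (-X) * Func_two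

private theorem Func_refl {D : ℕ} {y : ℕ → ZMod 2} (h2 : ∀ j, j ≤ 2 * D → y j = y (2 * D - j)) :
    ∀ p a b, a + b + 2 * p ≤ 2 * D →
      Lam y (X ^ a * (1 + X) ^ b * (1 + Func_t) ^ p) =
        Lam y (X ^ (2 * D - a - b - 2 * p) * (1 + X) ^ b * (1 + Func_t) ^ p) := by
  intro p
  induction p with
  | zero =>
    intro a b hab
    rw [pow_zero, mul_one, mul_one, Lam_mm, Lam_mm, pal_rows h2 b a (by omega)]
    congr 1
    omega
  | succ p ih =>
    intro a b hab
    have e1 : ∀ c, X ^ c * (1 + X) ^ b * (1 + Func_t) ^ (p + 1) =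
        X ^ c * (1 + X) ^ (b + 2) * (1 + Func_t) ^ p + X ^ (c + 1) * (1 + X) ^ b * (1 + Func_t) ^ p := by
      intro c
      linear_combination (-(X ^ (c + 1) * (1 + X) ^ b * (1 + Func_t) ^ p)) * Func_two
    have e2 : 2 * D - a - (b + 2) - 2 * p = 2 * D - a - b - 2 * (p + 1) := by omega
    have e3 : 2 * D - (a + 1) - b - 2 * p = 2 * D - a - b - 2 * (p + 1) + 1 := by omega
    rw [e1, e1, map_add, map_add, ih a (b + 2) (by omega), ih (a + 1) b (by omega), e2, e3]

theorem func (D : ℕ) (y : ℕ → ZMod 2)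
    (h1 : ∀ a, a ≤ D → mm y a a = 0)
    (h2 : ∀ j, j ≤ 2 * D → y j = y (2 * D - j))
    (h3 : ∀ m, m + 1 ≤ D → mm y m (m + 1) = y (2 * m) + y (2 * m + 1)) :
    ∀ j, j ≤ 2 * D → y j = 0 := by
  have hy0 : y 0 = 0 := h1 0 (Nat.zero_le _)
  rcases Nat.eq_zero_or_pos D with rfl | hD
  · intro j hj
    have hj0 : j = 0 := by omega
    rw [hj0]
    exact hy0
  obtain ⟨n, rfl⟩ : ∃ n, D = n + 1 := ⟨D - 1, by omega⟩
  obtain ⟨c, hc⟩ : ∃ c : (ZMod 2)[X] →ₗ[ZMod 2] ZMod 2, ∀ f, c f = Lam y (X * aeval (1 + Func_t) f) :=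
    ⟨Func_M y X (1 + Func_t), fun _ => rfl⟩
  have ht : (1 : (ZMod 2)[X]) + (1 + Func_t) = Func_t := by
    linear_combination Func_two
  have hcm : ∀ i k, c (X ^ i * (1 + X) ^ k) = Lam y (X * ((1 + Func_t) ^ i * Func_t ^ k)) := by
    intro i k
    rw [hc, Func_av, ht]
  have hdeg : ∀ i k : ℕ, (X ^ i * (1 + X : (ZMod 2)[X]) ^ k).natDegree ≤ i + k := by
    intro i k
    refine natDegree_mul_le.trans ?_
    have h5 : ((1 + X : (ZMod 2)[X]) ^ k).natDegree ≤ k := by
      refine natDegree_pow_le.trans ?_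
      have h4 : (1 + X : (ZMod 2)[X]).natDegree ≤ 1 := by
        rw [add_comm, ← C_1, natDegree_X_add_C]
      calc k * (1 + X : (ZMod 2)[X]).natDegree ≤ k * 1 := Nat.mul_le_mul_left _ h4
        _ = k := mul_one k
    rw [natDegree_X_pow]
    omega
  -- values of `Lam y (X g(t))` for products
  have hE0 : ∀ i k, i + k ≤ n → Lam y (X * ((1 + Func_t) ^ i * Func_t ^ k)) =
      Lam y (X ^ (2 * k) * (1 + X) ^ (2 * i + 1)) := by
    intro i k hik
    have h4 := Func_E h3 (X ^ k * (1 + X) ^ i) (by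
      have h5 := hdeg k i
      omega)
    rw [Func_av, Func_av, Func_sq] at h4
    rw [mul_comm ((1 + Func_t) ^ i), h4]
    congr 1
    rw [← pow_mul, ← pow_mul]
    ring
  have hval : ∀ i k, i + k ≤ n → c (X ^ i * (1 + X) ^ k) = mm y (2 * k) (2 * i + 1) := by
    intro i k hik
    rw [hcm, hE0 i k hik, ← Func_sub h1 _ (by
      have h5 := hdeg (2 * k) (2 * i + 1)
      omega), Func_av]
    have e1 : (1 : (ZMod 2)[X]) + (1 + X) = X := by
      linear_combination Func_two
    rw [e1, mul_comm, Lam_mm]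
  have ha : ∀ i k, i + k ≤ n → c (X ^ i * (1 + X) ^ k) = c (X ^ (n - i - k) * (1 + X) ^ k) := by
    intro i k hik
    rw [hval i k hik, hval (n - i - k) k (by omega), pal_rows h2 (2 * k) (2 * i + 1) (by omega)]
    congr 1
    omega
  have hz := fun a p hap => Func_zero h1 a p hap
  have hb0 : ∀ m, 3 * m ≤ n → c (X ^ m * (1 + X) ^ (2 * m)) = 0 := by
    intro m hm
    obtain ⟨p, hp⟩ : ∃ p, n = 3 * m + p := ⟨n - 3 * m, by omega⟩
    rw [ha m (2 * m) (by omega), hcm]
    have e0 : n - m - 2 * m = p := by omega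
    rw [e0]
    have e1 : Lam y (X * ((1 + Func_t) ^ p * Func_t ^ (2 * m))) =
        Lam y (X ^ (2 * m) * (1 + X) ^ (2 * m + 1) * (1 + Func_t) ^ p) := by
      have e2 : X ^ (2 * m) * (1 + X) ^ (2 * m + 1) * (1 + Func_t) ^ p =
          X * ((1 + Func_t) ^ p * Func_t ^ (2 * m)) + Func_t ^ (2 * m) * (1 + Func_t) ^ p := by
        rw [Func_tpow]
        ring
      rw [e2, map_add, hz (2 * m) p (by omega), add_zero]
    rw [e1, Func_refl h2 p (2 * m) (2 * m + 1) (by omega)]
    have e3 : 2 * (n + 1) - 2 * m - (2 * m + 1) - 2 * p = 2 * m + 1 := by omega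
    rw [e3, ← Func_tpow]
    exact hz (2 * m + 1) p (by omega)
  have hb1 : ∀ m, 3 * m + 1 ≤ n → c (X ^ (m + 1) * (1 + X) ^ (2 * m)) = 0 := by
    intro m hm
    obtain ⟨p, hp⟩ : ∃ p, n = 3 * m + 1 + p := ⟨n - (3 * m + 1), by omega⟩
    rw [ha (m + 1) (2 * m) (by omega), hcm]
    have e0 : n - (m + 1) - 2 * m = p := by omega
    rw [e0]
    have e1 : Lam y (X * ((1 + Func_t) ^ p * Func_t ^ (2 * m))) =
        Lam y (X ^ (2 * m) * (1 + X) ^ (2 * m + 2) * (1 + Func_t) ^ p) := by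
      have e2 : X ^ (2 * m) * (1 + X) ^ (2 * m + 2) * (1 + Func_t) ^ p =
          X * ((1 + Func_t) ^ p * Func_t ^ (2 * m)) + Func_t ^ (2 * m) * (1 + Func_t) ^ p +
            Func_t ^ (2 * m + 1) * (1 + Func_t) ^ p := by
        rw [pow_succ Func_t (2 * m), Func_tpow]
        linear_combination 0 * Func_two
      rw [e2, map_add, map_add, hz (2 * m) p (by omega), hz (2 * m + 1) p (by omega), add_zero,
        add_zero]
    rw [e1, Func_refl h2 p (2 * m) (2 * m + 2) (by omega)]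
    have e3 : 2 * (n + 1) - 2 * m - (2 * m + 2) - 2 * p = 2 * m + 2 := by omega
    rw [e3, ← Func_tpow]
    exact hz (2 * m + 2) p (by omega)
  have hGc : ∀ i, aeval (1 + Func_t) ((Func_F (2 * i + 1)).comp (X + C 1)) =
      aeval Func_t (Func_F (2 * i + 1)) := by
    intro i
    rw [aeval_comp]
    congr 1
    rw [map_add, aeval_X, aeval_C, map_one, add_comm, ht]
  have hE : ∀ m i, 2 * m + i ≤ n → c ((1 + X) ^ (2 * m) * (Func_F (2 * i + 1)).comp (X + C 1)) =
      c ((1 + X) ^ m * X ^ (m + i)) := by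
    intro m i hmi
    have e0 : aeval (1 + Func_t) ((1 + X : (ZMod 2)[X]) ^ (2 * m)) = Func_t ^ (2 * m) := by
      rw [map_pow, map_add, map_one, aeval_X, ht]
    rw [mul_comm ((1 + X) ^ m), hcm, hE0 (m + i) m (by omega), hc, map_mul (aeval (1 + Func_t)), e0,
      hGc]
    have e1 : X ^ (2 * m) * (1 + X) ^ (2 * (m + i) + 1) = Func_t ^ (2 * m) * (1 + X) ^ (2 * i + 1) := by
      rw [Func_tpow]
      ring
    have hF1 := Func_F_deg (2 * i + 1)
    have hF2 := Func_F_deg (2 * i)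
    have e2 : Lam y (Func_t ^ (2 * m) * aeval Func_t (Func_F (2 * i + 1))) = 0 := by
      have h4 := Func_one h1 (X ^ (2 * m) * Func_F (2 * i + 1)) (by
        refine natDegree_mul_le.trans ?_
        rw [natDegree_X_pow]
        omega)
      rw [map_mul (aeval Func_t), map_pow (aeval Func_t), aeval_X] at h4
      exact h4
    have e3 : Lam y (Func_t ^ (2 * m + 1) * aeval Func_t (Func_F (2 * i))) = 0 := by
      rcases Nat.eq_zero_or_pos i with rfl | hi
      · simp [Func_F]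
      have h4 := Func_one h1 (X ^ (2 * m + 1) * Func_F (2 * i)) (by
        refine natDegree_mul_le.trans ?_
        rw [natDegree_X_pow]
        omega)
      rw [map_mul (aeval Func_t), map_pow (aeval Func_t), aeval_X] at h4
      exact h4
    rw [e1, Func_powX1]
    have e4 : Func_t ^ (2 * m) * ((1 + X) * aeval Func_t (Func_F (2 * i + 1)) +
        Func_t * aeval Func_t (Func_F (2 * i))) =
        X * (Func_t ^ (2 * m) * aeval Func_t (Func_F (2 * i + 1))) +
          Func_t ^ (2 * m) * aeval Func_t (Func_F (2 * i + 1)) +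
          Func_t ^ (2 * m + 1) * aeval Func_t (Func_F (2 * i)) := by
      ring
    rw [e4, map_add, map_add, e2, e3, add_zero, add_zero]
  have hG : ∀ i, ((Func_F (2 * i + 1)).comp (X + C 1)).Monic ∧
      ((Func_F (2 * i + 1)).comp (X + C 1)).natDegree = i := by
    intro i
    have h4 := Func_F_monic i
    refine ⟨h4.1.comp_X_add_C 1, ?_⟩
    rw [natDegree_comp, natDegree_X_add_C, mul_one, h4.2]
  have hcore := core n c (fun i => (Func_F (2 * i + 1)).comp (X + C 1)) hG ha hb0 hb1 hE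
  have hX : ∀ f : (ZMod 2)[X], f.natDegree ≤ n → Lam y (X * aeval Func_t f) = 0 := by
    intro f hf
    have h4 := Func_ext n c 0 (fun i hi => hcore i hi) (f.comp (X + C 1)) (by
      rw [natDegree_comp, natDegree_X_add_C, mul_one]
      exact hf)
    have e1 : aeval (1 + Func_t) (f.comp (X + C 1)) = aeval Func_t f := by
      rw [aeval_comp]
      congr 1
      rw [map_add, aeval_X, aeval_C, map_one, add_comm, ht]
    rw [hc, e1] at h4
    exact h4
  intro j hj
  rcases Nat.eq_zero_or_pos j with rfl | hj0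
  · exact hy0
  · obtain ⟨k, rfl⟩ : ∃ k, j = k + 1 := ⟨j - 1, by omega⟩
    rw [← Lam_X_pow y (k + 1), Func_powX, map_add, hX _ (by
      have h5 := Func_F_deg (k + 1)
      omega), zero_add]
    have h6 : Lam y (aeval Func_t (X * Func_F k)) = 0 := by
      rcases Nat.eq_zero_or_pos k with rfl | hk
      · simp [Func_F]
      refine Func_one h1 _ ?_
      refine natDegree_mul_le.trans ?_
      have h5 := Func_F_deg k
      rw [natDegree_X]
      omega
    rw [map_mul (aeval Func_t), aeval_X] at h6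
    exact h6

end Pool.Agent.DYM
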