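import Pool.Agent.DYM.Func

/-!
# FuncOdd (uses `func` of Func.lean as a black box)

Plan. Strong induction on D. D = 0: d = 1, y 0 = 0 (Tri.zero), y 1 = y 0 (P).
Let D >= 1. y 0 = 0 (Tri.zero), y (2D+1) = y 0 = 0 (P with a = 0).
Put `A j = if j <= D then y (2 j) else 0`. By F1 (and y (2D+1) = 0): y (2 j + 1) = A (j + 1) for j <= D.
General facts (induction on a): mm (fun j => y (2 j)) a b = mm y (2 a) (2 b),
mm (fun j => y (2 j + 1)) a b = mm y (2 a) (2 b + 1), mm (fun j => x (j + 1)) a b = mm x a (b + 1), and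
mm x a b = mm x' a b if x, x' agree on [b, b + a].
(0) mm A a b = mm y (2 a) (2 b) for a + b <= D.
(1) mm y (2 c + 1) (2 b + 1) = 0 for b + c + 1 <= D (induction on c, c = 0 is F1).
(2) Tri A (D + 1). P: A j = A (D + 1 - j) (from y palindromic: y (2 j) = y (2 (D - j) + 1) = A (D - j + 1)),
  then pal_rows. Q: let c = D + 1 - a - b. If a >= 1 and c >= 1: mm A c b = mm y (2 c) (2 b) =
  mm y (2 c - 1) (2 b) + mm y (2 c - 1) (2 b + 1) = mm y (2 c - 1) (2 b) [by (1)] = mm y (2 a) (2 b) [Q of y,
  2 D + 1 - 2 a - 2 b = 2 c - 1] = mm A a b. For a = 0 (or c = 0, symmetric) we need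
  r b := mm A (D + 1 - b) b = A b, b <= D + 1: descending induction; r (D+1) = A (D+1) = 0,
  r D = mm A 1 D = A D + A (D+1) = A D, and for b < D: r b = mm A (D - b) b + r (b + 1) and
  mm A (D - b) b = mm A 1 b = A b + A (b + 1) by the case a, c >= 1.
(3) kappa k := mm y k (k+1). kappa (2 r) = mm A r (r + 1) for 2 r <= D (y (2j+1) = A (j+1)).
  kappa (2 r + 1) for 2 r + 1 <= D : = mm y (2r+1) (2D-4r-2) [P] = mm y (2r+2) (2D-4r-2) [Q] =
  mm A (r+1) (D-2r-1) [(0)]; as A is Tri (D+1) and D+1 = (r+1) + (r+1) + (D-2r-1), this is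
  mm A (D-2r-1) (r+1) = 0 by Tri.mid if D > 2 r + 1; if D = 2 r + 1 it is kappa D, and F2 for k = 0
  reads y 1 + kappa D = y 0 + y 1, so kappa D = 0; moreover then kappa D = mm A (r+1) 0 = A (r+1),
  so the middle value A ((D+1)/2) = 0.
(4) D = 2 E even, E < D: A satisfies the hypotheses with E: F1 from F2 with k odd (k = 2 j - 1, both kappa
  vanish), F2 from F2 with k = 2 r (D - k = 2 (E - r)). Induction: A = 0 on [0, D + 1].
  D odd, D + 1 = 2 D'': `func D'' A`: h1: mm A a a = 0 for a <= D'' (a < D'': (a, a, 2D''-2a) is a permutation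
  of (2D''-2a, a, a): Tri.mid; a = D'': mm A a a = mm A a 0 = A a = 0 by (3)); h2 = P of A;
  h3 from F2 with k = 2 r (D - k odd). So A = 0 on [0, D + 1].
  Then y (2 j) = A j, y (2 j + 1) = A (j + 1) are 0.
-/

set_option autoImplicit false

namespace Pool.Agent.DYM

open Finset Polynomial

private theorem FuncOdd_ext (x x' : ℕ → ZMod 2) : ∀ a b, (∀ j, b ≤ j → j ≤ b + a → x j = x' j) →
    mm x a b = mm x' a b := by
  intro a
  induction a with
  | zero => intro b h; exact h b le_rfl le_rfl
  | succ a ih =>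
    intro b h
    rw [mm_succ, mm_succ, ih b (fun j h1 h2 => h j h1 (by omega)),
      ih (b + 1) (fun j h1 h2 => h j (by omega) (by omega))]

private theorem FuncOdd_even (y : ℕ → ZMod 2) : ∀ a b,
    mm (fun j => y (2 * j)) a b = mm y (2 * a) (2 * b) := by
  intro a
  induction a with
  | zero => intro b; rfl
  | succ a ih =>
    intro b
    rw [mm_succ, ih, ih, show 2 * (a + 1) = 2 * a + 1 + 1 by ring, mm_succ, mm_succ, mm_succ,
      show 2 * (b + 1) = 2 * b + 1 + 1 by ring]
    have := add_self (mm y (2 * a) (2 * b + 1))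
    linear_combination -this

private theorem FuncOdd_odd (y : ℕ → ZMod 2) : ∀ a b,
    mm (fun j => y (2 * j + 1)) a b = mm y (2 * a) (2 * b + 1) := by
  intro a
  induction a with
  | zero => intro b; rfl
  | succ a ih =>
    intro b
    rw [mm_succ, ih, ih, show 2 * (a + 1) = 2 * a + 1 + 1 by ring, mm_succ, mm_succ, mm_succ,
      show 2 * (b + 1) + 1 = 2 * b + 1 + 1 + 1 by ring]
    have := add_self (mm y (2 * a) (2 * b + 1 + 1))
    linear_combination -this

private theorem FuncOdd_shift (x : ℕ → ZMod 2) : ∀ a b,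
    mm (fun j => x (j + 1)) a b = mm x a (b + 1) := by
  intro a
  induction a with
  | zero => intro b; rfl
  | succ a ih => intro b; rw [mm_succ, mm_succ, ih, ih]

private theorem FuncOdd_z (D : ℕ) (y : ℕ → ZMod 2)
    (F1 : ∀ k, 1 ≤ k → k ≤ D → y (2 * k - 1) = y (2 * k)) :
    ∀ c b, b + c + 1 ≤ D → mm y (2 * c + 1) (2 * b + 1) = 0 := by
  intro c
  induction c with
  | zero =>
    intro b hb
    have h := F1 (b + 1) (by omega) (by omega)
    rw [show 2 * (b + 1) - 1 = 2 * b + 1 by omega] at h
    show mm y 0 (2 * b + 1) + mm y 0 (2 * b + 1 + 1) = 0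
    rw [mm_zero, mm_zero, show 2 * b + 1 + 1 = 2 * (b + 1) by ring]
    exact add_of_eq h
  | succ c ih =>
    intro b hb
    rw [show 2 * (c + 1) + 1 = 2 * c + 1 + 1 + 1 by ring, mm_succ y (2 * c + 1 + 1),
      mm_succ y (2 * c + 1) (2 * b + 1), mm_succ y (2 * c + 1) (2 * b + 1 + 1),
      ih b (by omega), show 2 * b + 1 + 1 + 1 = 2 * (b + 1) + 1 by ring, ih (b + 1) (by omega),
      zero_add, add_zero]
    exact add_self _

private theorem FuncOdd_tri (D : ℕ) (y A : ℕ → ZMod 2) (T : Tri y (2 * D + 1))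
    (F1 : ∀ k, 1 ≤ k → k ≤ D → y (2 * k - 1) = y (2 * k))
    (hA : ∀ j, j ≤ D → A j = y (2 * j)) (hA' : ∀ j, j ≤ D → y (2 * j + 1) = A (j + 1))
    (A1 : A (D + 1) = 0) (h0 : ∀ a b, a + b ≤ D → mm A a b = mm y (2 * a) (2 * b)) :
    Tri A (D + 1) := by
  have y0 : y 0 = 0 := T.zero (by omega)
  have Qm : ∀ a b c, 1 ≤ a → 1 ≤ c → a + b + c = D + 1 → mm A c b = mm A a b := by
    intro a b c ha hc habc
    obtain ⟨c, rfl⟩ : ∃ c', c = c' + 1 := ⟨c - 1, by omega⟩
    rw [h0 (c + 1) b (by omega), h0 a b (by omega), show 2 * (c + 1) = 2 * c + 1 + 1 by ring,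
      mm_succ, FuncOdd_z D y F1 c b (by omega), add_zero, T.Q (2 * c + 1) (2 * b) (by omega)]
    congr 1
    omega
  have r : ∀ i, i ≤ D + 1 → mm A i (D + 1 - i) = A (D + 1 - i) := by
    intro i
    induction i with
    | zero => intro _; rfl
    | succ i ih =>
      intro hi
      rcases Nat.eq_zero_or_pos i with rfl | hi0
      · show mm A 0 (D + 1 - (0 + 1)) + mm A 0 (D + 1 - (0 + 1) + 1) = A (D + 1 - (0 + 1))
        rw [mm_zero, mm_zero, show D + 1 - (0 + 1) + 1 = D + 1 by omega, A1, add_zero]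
      · rw [mm_succ, Qm 1 (D + 1 - (i + 1)) i le_rfl hi0 (by omega),
          show D + 1 - (i + 1) + 1 = D + 1 - i by omega, ih (by omega)]
        show mm A 0 (D + 1 - (i + 1)) + mm A 0 (D + 1 - (i + 1) + 1) + A (D + 1 - i) = _
        rw [mm_zero, mm_zero, show D + 1 - (i + 1) + 1 = D + 1 - i by omega, add_assoc,
          add_self, add_zero]
  refine ⟨pal_rows ?_, ?_⟩
  · intro j hj
    rcases Nat.lt_or_ge D j with h | h
    · have hj' : j = D + 1 := by omega
      subst hj'
      rw [A1, Nat.sub_self, hA 0 (by omega), mul_zero, y0]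
    · rw [hA j h, show D + 1 - j = D - j + 1 by omega, ← hA' (D - j) (by omega)]
      have := T.P 0 (2 * j) (by omega)
      rw [mm_zero, mm_zero] at this
      rw [this]
      congr 1
      omega
  · intro a b hab
    rcases Nat.eq_zero_or_pos a with rfl | ha
    · have := r (D + 1 - b) (by omega)
      rw [show D + 1 - (D + 1 - b) = b by omega] at this
      rw [Nat.sub_zero, this, mm_zero]
    · rcases Nat.eq_zero_or_pos (D + 1 - a - b) with hc | hc
      · have := r a (by omega)
        rw [show D + 1 - a = b by omega] at this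
        rw [hc, this, mm_zero]
      · exact (Qm a b (D + 1 - a - b) ha hc (by omega)).symm

theorem funcOdd (D : ℕ) : ∀ y : ℕ → ZMod 2, Tri y (2 * D + 1) →
    (∀ k, 1 ≤ k → k ≤ D → y (2 * k - 1) = y (2 * k)) →
    (∀ k, k ≤ D → mm y k (k + 1) + mm y (D - k) (D - k + 1) = y (2 * k) + y (2 * k + 1)) →
    ∀ j, j ≤ 2 * D + 1 → y j = 0 := by
  induction D using Nat.strong_induction_on with
  | _ D IH =>
  intro y T F1 F2
  have y0 : y 0 = 0 := T.zero (by omega)
  have y1 : y (2 * D + 1) = 0 := by
    have h := T.P 0 0 (by omega)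
    rw [mm_zero, mm_zero, y0] at h
    exact h.symm
  rcases Nat.eq_zero_or_pos D with rfl | hD
  · intro j hj
    have : j = 0 ∨ j = 1 := by omega
    rcases this with rfl | rfl
    · exact y0
    · exact y1
  set A : ℕ → ZMod 2 := fun j => if j ≤ D then y (2 * j) else 0 with hAdef
  have hA : ∀ j, j ≤ D → A j = y (2 * j) := fun j hj => by simp only [hAdef]; rw [if_pos hj]
  have A1 : A (D + 1) = 0 := by simp only [hAdef]; rw [if_neg (by omega)]
  have hA' : ∀ j, j ≤ D → y (2 * j + 1) = A (j + 1) := by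
    intro j hj
    rcases Nat.lt_or_ge j D with h | h
    · rw [hA (j + 1) (by omega), ← F1 (j + 1) (by omega) (by omega)]
      congr 1
    · have : j = D := by omega
      subst this
      rw [A1, y1]
  have h0 : ∀ a b, a + b ≤ D → mm A a b = mm y (2 * a) (2 * b) := by
    intro a b hab
    rw [← FuncOdd_even]
    exact FuncOdd_ext _ _ a b fun j h1 h2 => hA j (by omega)
  have TA : Tri A (D + 1) := FuncOdd_tri D y A T F1 hA hA' A1 h0
  have kE : ∀ r, 2 * r ≤ D → mm y (2 * r) (2 * r + 1) = mm A r (r + 1) := by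
    intro r hr
    rw [← FuncOdd_odd, ← FuncOdd_shift]
    exact FuncOdd_ext _ _ r r fun j h1 h2 => hA' j (by omega)
  have kO1 : ∀ r, 2 * r + 1 ≤ D → mm y (2 * r + 1) (2 * r + 2) = mm A (r + 1) (D - 2 * r - 1) := by
    intro r hr
    rcases Nat.lt_or_ge (2 * r + 1 + (2 * r + 2)) (2 * D + 1 + 1) with h | h
    · rw [T.P (2 * r + 1) (2 * r + 2) (by omega), T.Q (2 * r + 1) _ (by omega),
        h0 (r + 1) (D - 2 * r - 1) (by omega)]
      congr 1 <;> omega
    · omega
  have kD : ∀ r, 2 * r + 1 = D → mm y (2 * r + 1) (2 * r + 2) = 0 := by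
    intro r hr
    have h := F2 0 (by omega)
    rw [Nat.sub_zero, mm_zero, Nat.mul_zero, zero_add, y0, zero_add] at h
    have h' : mm y D (D + 1) = 0 := by
      have h3 : y 1 + mm y D (D + 1) = y 1 + 0 := by rw [add_zero]; exact h
      exact add_left_cancel h3
    rw [← hr] at h'
    exact h'
  have kO : ∀ r, 2 * r + 1 ≤ D → mm y (2 * r + 1) (2 * r + 2) = 0 := by
    intro r hr
    rcases Nat.lt_or_ge (2 * r + 1) D with h | h
    · rw [kO1 r hr, TA.S (by omega)]
      exact TA.mid (by omega) (by omega)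
    · exact kD r (by omega)
  have hfin : ∀ j, j ≤ D + 1 → A j = 0 := by
    rcases Nat.even_or_odd' D with ⟨E, hE | hE⟩
    · -- `D = 2 E`
      have h := IH E (by omega) A (by rw [← hE]; exact TA) ?_ ?_
      · intro j hj
        exact h j (by omega)
      · intro k hk hkE
        have h2 := F2 (2 * k - 1) (by omega)
        have h3 := kO (k - 1) (by omega)
        have h4 := kO (E - k) (by omega)
        rw [show 2 * (k - 1) + 1 = 2 * k - 1 by omega, show 2 * (k - 1) + 2 = 2 * k - 1 + 1 by omega]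
          at h3
        rw [show 2 * (E - k) + 1 = D - (2 * k - 1) by omega,
          show 2 * (E - k) + 2 = D - (2 * k - 1) + 1 by omega] at h4
        rw [h3, h4, add_zero, ← hA (2 * k - 1) (by omega), hA' (2 * k - 1) (by omega)] at h2
        have h5 := eq_of_add h2.symm
        rw [h5]
        congr 1
        omega
      · intro k hk
        have h2 := F2 (2 * k) (by omega)
        have h4 := kE (E - k) (by omega)
        rw [show 2 * (E - k) = D - 2 * k by omega] at h4
        rw [kE k (by omega), h4, ← hA (2 * k) (by omega), hA' (2 * k) (by omega)] at h2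
        exact h2
    · -- `D = 2 E + 1`
      have hmid : A (E + 1) = 0 := by
        have h := kO1 E (by omega)
        rw [kD E (by omega), show D - 2 * E - 1 = 0 by omega, TA.row0 (by omega)] at h
        exact h.symm
      have hD' : D + 1 = 2 * (E + 1) := by omega
      have h := func (E + 1) A ?_ ?_ ?_
      · intro j hj
        exact h j (by omega)
      · intro a ha
        rw [TA.P a a (by omega)]
        rcases Nat.lt_or_ge a (E + 1) with h | h
        · rw [TA.S (by omega)]
          exact TA.mid (by omega) (by omega)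
        · rw [show D + 1 - a - a = 0 by omega, TA.row0 (by omega), show a = E + 1 by omega, hmid]
      · intro j hj
        have h := TA.P 0 j (by omega)
        rw [mm_zero, mm_zero] at h
        rw [h]
        congr 1
        omega
      · intro m hm
        have h2 := F2 (2 * m) (by omega)
        have h4 := kO (E - m) (by omega)
        rw [show 2 * (E - m) + 1 = D - 2 * m by omega,
          show 2 * (E - m) + 2 = D - 2 * m + 1 by omega] at h4
        rw [kE m (by omega), h4, add_zero, ← hA (2 * m) (by omega), hA' (2 * m) (by omega)] at h2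
        exact h2
  intro j hj
  rcases Nat.even_or_odd' j with ⟨i, hi | hi⟩
  · rw [hi, ← hA i (by omega)]
    exact hfin i (by omega)
  · rw [hi, hA' i (by omega)]
    exact hfin (i + 1) (by omega)

end Pool.Agent.DYM
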