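import Pool.Agent.DYM.PalA

/-!
# OddReg: a regular Steinhaus graph of odd degree has two vertices
-/

set_option autoImplicit false

namespace Pool.Agent.DYM

open Finset

theorem mat_symm (s : ℕ → ZMod 2) (i j : ℕ) : mat s i j = mat s j i := by
  unfold mat
  split_ifs with h1 h2 h3
  · omega
  · rfl
  · rfl
  · rfl

theorem mat_diag (s : ℕ → ZMod 2) (i : ℕ) : mat s i i = 0 := by simp [mat]

theorem handshake (s : ℕ → ZMod 2) : ∀ n, ∑ i ∈ range n, ∑ j ∈ range n, mat s i j = 0 := by
  intro n
  induction n with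
  | zero => simp
  | succ n ih =>
    rw [sum_range_succ]
    have h1 : ∑ i ∈ range n, ∑ j ∈ range (n + 1), mat s i j =
        ∑ i ∈ range n, ∑ j ∈ range n, mat s i j + ∑ i ∈ range n, mat s n i := by
      rw [← sum_add_distrib]
      exact sum_congr rfl fun i _ => by rw [sum_range_succ, mat_symm s i n]
    rw [h1, ih, sum_range_succ, mat_diag]
    linear_combination add_self (∑ i ∈ range n, mat s n i)

/-- the string with its last letter complemented and first entry set to zero -/
def flip (N : ℕ) (s : ℕ → ZMod 2) (j : ℕ) : ZMod 2 :=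
  if j = 0 then 0 else if j = N then s j + 1 else s j

theorem mm_flip (N : ℕ) (s : ℕ → ZMod 2) : ∀ a b, 1 ≤ b → a + b ≤ N →
    mm (flip N s) a b = mm s a b + if a + b = N then 1 else 0 := by
  intro a
  induction a with
  | zero =>
    intro b h1 h2
    simp only [mm_zero, flip, if_neg (show ¬ b = 0 by omega), Nat.zero_add]
    split_ifs
    · rfl
    · rw [add_zero]
  | succ a ih =>
    intro b h1 h2
    rw [mm_succ, mm_succ, ih b h1 (by omega), ih (b + 1) (by omega) (by omega),
      if_neg (show ¬ a + b = N by omega), show a + 1 + b = a + (b + 1) by ring]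
    ring

theorem mat_flip_lt {N : ℕ} (s : ℕ → ZMod 2) {i j : ℕ} (hi : i < N) (hj : j < N) :
    mat (flip N s) i j = mat s i j := by
  unfold mat
  split_ifs with h1 h2
  · rw [entry_eq _ _ _ h1, entry_eq _ _ _ h1, mm_flip N s i (j - i) (by omega) (by omega),
      if_neg (by omega), add_zero]
  · rw [entry_eq _ _ _ h2, entry_eq _ _ _ h2, mm_flip N s j (i - j) (by omega) (by omega),
      if_neg (by omega), add_zero]
  · rfl

theorem mat_flip_last {N : ℕ} (s : ℕ → ZMod 2) {i : ℕ} (hi : i < N) :
    mat (flip N s) i N = mat s i N + 1 := by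
  unfold mat
  rw [if_pos hi, if_pos hi, entry_eq _ _ _ hi, entry_eq _ _ _ hi,
    mm_flip N s i (N - i) (by omega) (by omega), if_pos (by omega)]

theorem mat_eq_mm (x : ℕ → ZMod 2) {i N : ℕ} (hi : i < N) : mat x i N = mm x i (N - i) := by
  unfold mat
  rw [if_pos hi, entry_eq _ _ _ hi]

theorem val_compl (x : ZMod 2) : x.val + (x + 1).val = 1 := by revert x; decide

/-- degrees before and after the flip -/
theorem deg_flip {N : ℕ} (s : ℕ → ZMod 2) {i : ℕ} (hi : i < N) :
    deg (N + 1) s i + 2 * (mm (flip N s) i (N - i)).val = deg (N + 1) (flip N s) i + 1 := by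
  have h : ∑ j ∈ range N, (mat (flip N s) i j).val = ∑ j ∈ range N, (mat s i j).val :=
    sum_congr rfl fun j hj => by rw [mat_flip_lt s hi (mem_range.1 hj)]
  rw [deg_val, deg_val, sum_range_succ, sum_range_succ, h, ← mat_eq_mm _ hi,
    mat_flip_last s hi]
  have := val_compl (mat s i N)
  omega

theorem deg_flip_last {N : ℕ} (s : ℕ → ZMod 2) :
    deg (N + 1) s N + deg (N + 1) (flip N s) N = N := by
  rw [deg_val, deg_val, sum_range_succ, sum_range_succ, mat_diag, mat_diag]
  have h : ∑ j ∈ range N, (mat s N j).val + ∑ j ∈ range N, (mat (flip N s) N j).val = N := by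
    rw [← sum_add_distrib]
    rw [sum_congr rfl (g := fun _ => 1)]
    · simp
    · intro j hj
      have hj := mem_range.1 hj
      rw [mat_symm s N j, mat_symm (flip N s) N j, mat_flip_last s hj]
      exact val_compl _
  simpa using h

theorem odd_cast {k : ℕ} (h : Odd k) : (k : ZMod 2) = 1 := by
  obtain ⟨m, rfl⟩ := h
  push_cast
  rw [show (2 : ZMod 2) = 0 from rfl]
  ring

theorem mm_comp (x : ℕ → ZMod 2) : ∀ a b,
    mm (fun j => x (j + 1) + x (j + 2)) a b = mm x (a + 1) (b + 1) := by
  intro a
  induction a with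
  | zero => intro b; rfl
  | succ a ih => intro b; rw [mm_succ, ih, ih, mm_succ x (a + 1) (b + 1)]

theorem odd_regular {n : ℕ} (hn : 2 ≤ n) {s : ℕ → ZMod 2} {r : ℕ} (hr : Odd r)
    (hdeg : ∀ i, i < n → deg n s i = r) : n = 2 := by
  obtain ⟨N, rfl⟩ : ∃ N, n = N + 1 := ⟨n - 1, by omega⟩
  -- the number of vertices is even
  have hNodd : Odd N := by
    have h1 := handshake s (N + 1)
    have h2 : ∀ i ∈ range (N + 1), ∑ j ∈ range (N + 1), mat s i j = 1 := by
      intro i hi
      rw [← deg_cast, hdeg i (mem_range.1 hi), odd_cast hr]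
    rw [sum_congr rfl h2] at h1
    simp only [sum_const, card_range, nsmul_eq_mul, mul_one] at h1
    rcases Nat.even_or_odd N with h | h
    · obtain ⟨k, rfl⟩ := h
      exfalso
      push_cast at h1
      rw [add_self, zero_add] at h1
      exact one_ne_zero h1
    · exact h
  set x := flip N s with hx
  -- all degrees of the flipped graph are even
  have heven : ∀ i, i < N + 1 → Even (deg (N + 1) x i) := by
    intro i hi
    rcases Nat.lt_or_ge i N with h | h
    · have h1 := deg_flip s h
      rw [← hx, hdeg i hi] at h1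
      obtain ⟨k, hk⟩ := hr
      exact Nat.even_iff.2 (by omega)
    · obtain rfl : i = N := by omega
      have h1 := deg_flip_last (N := i) s
      rw [← hx, hdeg i hi] at h1
      obtain ⟨k, hk⟩ := hr
      obtain ⟨l, hl⟩ := hNodd
      exact Nat.even_iff.2 (by omega)
  have hQ := sym_full heven
  rw [show N + 1 - 1 = N by omega] at hQ
  have hlast : ∀ i, i < N → mm x i (N - i) = x (N - i) := by
    intro i hi
    rw [hQ i (N - i) (by omega) (by omega), show N - i - (N - i) = 0 by omega]
    rfl
  have hd1 : ∀ i, i < N → r + 2 * (x (N - i)).val = deg (N + 1) x i + 1 := by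
    intro i hi
    have := deg_flip s hi
    rwa [← hx, hdeg i (by omega), hlast i hi] at this
  have hrows : ∀ i, i ≤ N → deg (N + 1) x i = ∑ b ∈ range (N - i), (mm x i (b + 1)).val +
      ∑ b ∈ range i, (mm x (N - i) (b + 1)).val := by
    intro i hi
    have h1 := deg_rows (n := N + 1) (s := x) (by rwa [show N + 1 - 1 = N by omega]) (i := i)
      (by omega)
    rwa [show N + 1 - 1 - i = N - i by omega] at h1
  have hN0 : x N = 0 := last_zero heven hn
  have hx0 : x 0 = 0 := by rw [hx]; simp [flip]
  have vinj : ∀ a b : ZMod 2, a.val = b.val → a = b := by decide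
  have hpal : ∀ j, j ≤ N → x j = x (N - j) := by
    intro j hj
    rcases Nat.eq_zero_or_pos j with rfl | hj0
    · rw [hx0, Nat.sub_zero, hN0]
    rcases Nat.lt_or_ge j N with hlt | hge
    · have h1 := hd1 j hlt
      have h2 := hd1 (N - j) (by omega)
      rw [hrows j (by omega)] at h1
      rw [hrows (N - j) (by omega)] at h2
      rw [show N - (N - j) = j by omega] at h2
      apply vinj
      omega
    · obtain rfl : j = N := by omega
      rw [Nat.sub_self, hx0, hN0]
  have hP := pal_rows hpal
  have hrow0 : ∀ a, a ≤ N → mm x a 0 = x a := by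
    intro a ha
    rcases Nat.lt_or_ge a N with h | h
    · rw [hP a 0 (by omega), Nat.sub_zero, hlast a h, ← hpal a ha]
    · obtain ⟨M, rfl⟩ : ∃ M, N = M + 1 := ⟨N - 1, by omega⟩
      obtain rfl : a = M + 1 := by omega
      rw [mm_succ, hP M 0 (by omega), show M + 1 - M - 0 = 0 + 1 by omega, add_self, hN0]
  have hT : Tri x N := ⟨hP, by
    intro a b hab
    rcases Nat.eq_zero_or_pos b with rfl | hb
    · rw [hrow0 a (by omega), hrow0 _ (by omega), hpal a (by omega), Nat.sub_zero]
    · exact hQ a b hb hab⟩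
  by_contra hne
  obtain ⟨D, rfl⟩ : ∃ D, N = 2 * D + 3 := by
    obtain ⟨l, hl⟩ := hNodd
    exact ⟨l - 1, by omega⟩
  -- the interior of the triangle
  have hTy : Tri (fun j => x (j + 1) + x (j + 2)) (2 * D) := ⟨by
    intro a b hab
    rw [mm_comp, mm_comp, hT.P (a + 1) (b + 1) (by omega)]
    congr 1
    omega, by
    intro a b hab
    rw [mm_comp, mm_comp, hT.Q (a + 1) (b + 1) (by omega)]
    congr 1
    omega⟩
  have hyD : (fun j => x (j + 1) + x (j + 2)) D = 0 := by
    show x (D + 1) + x (D + 2) = 0
    rw [hpal (D + 1) (by omega), show 2 * D + 3 - (D + 1) = D + 2 by omega]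
    exact add_self _
  obtain ⟨e, he⟩ := hr
  have hRR : ∀ i, 1 ≤ i → i ≤ 2 * D → ∃ e' : ℕ, R (fun j => x (j + 1) + x (j + 2)) (2 * D) i +
      R (fun j => x (j + 1) + x (j + 2)) (2 * D) (2 * D + 1 - i) = 2 * e' ∧
      (e' : ZMod 2) = (e : ZMod 2) := by
    intro i h1 h2
    refine ⟨e, ?_, rfl⟩
    have h3 := hd1 (i + 1) (by omega)
    rw [hrows (i + 1) (by omega)] at h3
    have e1 : 2 * D + 3 - (i + 1) = (2 * D + 1 - i) + 1 := by omega
    rw [e1, sum_range_succ, sum_range_succ] at h3
    have e2 : mm x (i + 1) (2 * D + 1 - i + 1) = x (i + 1) := by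
      rw [hT.P (i + 1) _ (by omega), ← hrow0 (i + 1) (by omega)]
      congr 1
      omega
    have e3 : mm x (2 * D + 1 - i + 1) (i + 1) = x (2 * D + 1 - i + 1) := by
      rw [hT.P _ (i + 1) (by omega), ← hrow0 (2 * D + 1 - i + 1) (by omega)]
      congr 1
      omega
    have e4 : x (2 * D + 1 - i + 1) = x (i + 1) := by
      rw [hpal (i + 1) (by omega), e1]
    rw [e2, e3, e4] at h3
    have r1 : R (fun j => x (j + 1) + x (j + 2)) (2 * D) i =
        ∑ b ∈ range (2 * D + 1 - i), (mm x (i + 1) (b + 1)).val := by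
      rw [R]
      simp only [mm_comp]
    have r2 : R (fun j => x (j + 1) + x (j + 2)) (2 * D) (2 * D + 1 - i) =
        ∑ b ∈ range i, (mm x (2 * D + 1 - i + 1) (b + 1)).val := by
      rw [R, show 2 * D + 1 - (2 * D + 1 - i) = i by omega]
      simp only [mm_comp]
    rw [r1, r2]
    omega
  have h3 := cond_even hTy hyD (e : ZMod 2) hRR
  have hy0 := func D _ (fun a ha => hTy.diag hyD ha) (fun j hj => by
    have := hTy.P 0 j (by omega)
    simpa using this) (fun m hm => by
    have hc : (e : ZMod 2) = 0 := by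
      have h0 := h3 0 (by omega)
      have hz := hTy.zero (by omega)
      simp only [Nat.mul_zero, Nat.zero_add, mm_zero] at h0 hz
      rw [hz] at h0
      linear_combination -h0
    rw [h3 m hm, hc, add_zero])
  -- the string is constant
  have hconst : ∀ j, 1 ≤ j → j ≤ 2 * D + 2 → x j = x 1 := by
    intro j h1
    induction j, h1 using Nat.le_induction with
    | base => intro _; rfl
    | succ j h1 ih =>
      intro h2
      rw [← ih (by omega)]
      have := hy0 (j - 1) (by omega)
      simp only [show j - 1 + 1 = j by omega, show j - 1 + 2 = j + 1 by omega] at this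
      exact (eq_of_add this).symm
  have hW : ∑ b ∈ range (2 * D + 3), (x (b + 1)).val = (2 * D + 2) * (x 1).val := by
    rw [sum_range_succ, hN0, sum_congr rfl (g := fun _ => (x 1).val)]
    · simp
    · intro b hb
      rw [hconst (b + 1) (by omega) (by have := mem_range.1 hb; omega)]
  have f1 := hd1 0 (by omega)
  rw [hrows 0 (by omega), Nat.sub_zero, hN0] at f1
  simp only [mm_zero, range_zero, sum_empty] at f1
  rw [hW] at f1
  have f2 := deg_flip_last (N := 2 * D + 3) s
  rw [← hx, hdeg _ (by omega), hrows _ le_rfl, Nat.sub_self] at f2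
  simp only [mm_zero, range_zero, sum_empty] at f2
  rw [hW] at f2
  have hz : (0 : ZMod 2).val = 0 := rfl
  rw [hz] at f1
  have hv : (x 1).val = 0 ∨ (x 1).val = 1 := by
    have : ∀ a : ZMod 2, a.val = 0 ∨ a.val = 1 := by decide
    exact this _
  rcases hv with hv | hv <;> rw [hv] at f1 f2 <;> omega

end Pool.Agent.DYM
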