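import Pool.Agent.DYM.Rows
import Pool.Agent.DYM.FuncOdd

/-!
# PalA: palindromic strings with all degrees even are separated by the degrees mod 4
-/

set_option autoImplicit false

namespace Pool.Agent.DYM

open Finset

theorem mm_shift (x : ℕ → ZMod 2) : ∀ a b, mm (fun j => x (j + 1)) a b = mm x a (b + 1) := by
  intro a
  induction a with
  | zero => intro b; rfl
  | succ a ih => intro b; rw [mm_succ, mm_succ, ih, ih]

/-- a symmetric array with vanishing middle: the diagonal entries vanish -/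
theorem Tri.diag {y : ℕ → ZMod 2} {D : ℕ} (h : Tri y (2 * D)) (hmid : y D = 0) {a : ℕ}
    (ha : a ≤ D) : mm y a a = 0 := by
  rw [h.P a a (by omega)]
  rcases Nat.lt_or_ge a D with hlt | hge
  · rw [h.S (by omega)]
    exact h.mid (by omega) (by omega)
  · obtain rfl : a = D := by omega
    rw [show 2 * a - a - a = 0 by omega, h.row0 (by omega), hmid]

theorem tri_of_pal {n : ℕ} {s : ℕ → ZMod 2}
    (hQ : ∀ a b, 1 ≤ b → a + b ≤ n - 1 → mm s a b = mm s (n - 1 - a - b) b) (hn : 2 ≤ n)
    (hpal : ∀ j, 1 ≤ j → j < n → s j = s (n - j)) :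
    Tri (fun j => s (j + 1)) (n - 2) where
  P := by
    refine pal_rows fun j hj => ?_
    show s (j + 1) = s (n - 2 - j + 1)
    rw [hpal (j + 1) (by omega) (by omega)]
    congr 1
    omega
  Q := by
    intro a b hab
    rw [mm_shift, mm_shift, hQ a (b + 1) (by omega) (by omega)]
    congr 1
    omega

/-- In ZMod 2 the sum of a palindrome is its middle. -/
theorem pal_sum2 (m : ℕ) (f : ℕ → ZMod 2) (hf : ∀ b, b ≤ 2 * m → f b = f (2 * m - b)) :
    ∑ b ∈ range (2 * m + 1), f b = f m := by
  rw [show 2 * m + 1 = m + 1 + m by ring, sum_range_add, sum_range_succ]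
  have h1 : ∑ b ∈ range m, f (m + 1 + b) = ∑ b ∈ range m, f b := by
    rw [← sum_range_reflect]
    refine sum_congr rfl fun b hb => ?_
    have hb := mem_range.1 hb
    rw [hf b (by omega)]
    congr 1
    omega
  rw [h1]
  linear_combination add_self (∑ b ∈ range m, f b)

theorem mid_of_pal {n : ℕ} {s : ℕ → ZMod 2} (h0 : Even (deg n s 0)) (hn : 2 ≤ n)
    (hpal : ∀ j, 1 ≤ j → j < n → s j = s (n - j)) :
    ∀ m, 2 * m = n - 2 → s (m + 1) = 0 := by
  intro m hm
  have h1 : (deg n s 0 : ZMod 2) = 0 := by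
    obtain ⟨k, hk⟩ := h0
    rw [hk]; push_cast; exact add_self _
  rw [deg_cast] at h1
  rw [show n = 2 * m + 1 + 1 by omega, sum_range_succ'] at h1
  have h2 : mat s 0 0 = 0 := by simp [mat]
  rw [h2, add_zero] at h1
  have h3 := pal_sum2 m (fun b => mat s 0 (b + 1)) (by
    intro b hb
    show mat s 0 (b + 1) = mat s 0 (2 * m - b + 1)
    simp only [mat, Nat.zero_lt_succ, if_true, entry]
    rw [hpal (b + 1) (by omega) (by omega)]
    congr 1
    omega)
  rw [h3] at h1
  simpa [mat, entry] using h1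

theorem row_split2 {n : ℕ} {s t : ℕ → ZMod 2} (g : ZMod 2 → ZMod 2 → ℕ) (hg : g 0 0 = 0)
    (hs : ∀ a b, 1 ≤ b → a + b ≤ n - 1 → mm s a b = mm s (n - 1 - a - b) b)
    (ht : ∀ a b, 1 ≤ b → a + b ≤ n - 1 → mm t a b = mm t (n - 1 - a - b) b) {i : ℕ} (hi : i < n) :
    ∑ j ∈ range n, g (mat s i j) (mat t i j) =
      ∑ b ∈ range (n - 1 - i), g (mm s i (b + 1)) (mm t i (b + 1)) +
      ∑ b ∈ range i, g (mm s (n - 1 - i) (b + 1)) (mm t (n - 1 - i) (b + 1)) := by
  obtain ⟨m, rfl⟩ : ∃ m, n = i + 1 + m := ⟨n - 1 - i, by omega⟩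
  have e : i + 1 + m - 1 - i = m := by omega
  rw [e, sum_range_add, sum_range_succ]
  have hd : g (mat s i i) (mat t i i) = 0 := by simp [mat, hg]
  have h1 : ∀ j, j < i → ∀ (u : ℕ → ZMod 2),
      (∀ a b, 1 ≤ b → a + b ≤ i + 1 + m - 1 → mm u a b = mm u (i + 1 + m - 1 - a - b) b) →
      mat u i j = mm u m (i - j) := by
    intro j hj u hu
    rw [mat, if_neg (by omega), if_pos hj, entry_eq u j i hj, hu j (i - j) (by omega) (by omega)]
    congr 1
    omega
  have h2 : ∀ b, ∀ (u : ℕ → ZMod 2), mat u i (i + 1 + b) = mm u i (b + 1) := by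
    intro b u
    rw [mat, if_pos (by omega), entry_eq u i _ (by omega)]
    congr 1
    omega
  rw [hd, add_zero, add_comm]
  congr 1
  · exact sum_congr rfl fun b _ => by rw [h2, h2]
  · rw [← sum_range_reflect]
    refine sum_congr rfl fun b hb => ?_
    have hb := mem_range.1 hb
    rw [h1 _ (by omega) s hs, h1 _ (by omega) t ht]
    rw [show i - (i - 1 - b) = b + 1 by omega]

/-- The degrees of a palindromic string in terms of the rows of the triangle. -/
theorem deg_R {n : ℕ} {s : ℕ → ZMod 2}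
    (hQ : ∀ a b, 1 ≤ b → a + b ≤ n - 1 → mm s a b = mm s (n - 1 - a - b) b) {i : ℕ} (h1 : 1 ≤ i)
    (hi : i ≤ n - 2) :
    deg n s i = R (fun j => s (j + 1)) (n - 2) i + R (fun j => s (j + 1)) (n - 2) (n - 1 - i) := by
  rw [deg_rows hQ (by omega), R, R, show n - 2 + 1 - i = n - 1 - i by omega,
    show n - 2 + 1 - (n - 1 - i) = i by omega]
  simp only [mm_shift]

theorem pal_zero {n : ℕ} {u : ℕ → ZMod 2} (hpal : ∀ j, 1 ≤ j → j < n → u j = u (n - j))
    (hdeg : ∀ i, i < n → 4 ∣ deg n u i) : ∀ j, 1 ≤ j → j < n → u j = 0 := by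
  intro j hj hjn
  have hn : 2 ≤ n := by omega
  have heven : ∀ i, i < n → Even (deg n u i) := by
    intro i hi
    obtain ⟨k, hk⟩ := hdeg i hi
    exact ⟨2 * k, by omega⟩
  have hQ := sym_full heven
  have hT := tri_of_pal hQ hn hpal
  have hmid := mid_of_pal (heven 0 (by omega)) hn hpal
  have hc : ∀ i, 1 ≤ i → i ≤ n - 2 → ∃ e : ℕ, R (fun j => u (j + 1)) (n - 2) i +
      R (fun j => u (j + 1)) (n - 2) (n - 1 - i) = 2 * e ∧ (e : ZMod 2) = 0 := by
    intro i h1 h2
    obtain ⟨k, hk⟩ := hdeg i (by omega)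
    refine ⟨2 * k, ?_, ?_⟩
    · rw [← deg_R hQ h1 h2, hk]; ring
    · push_cast
      rw [show (2 : ZMod 2) = 0 from rfl, zero_mul]
  have key : ∀ k, k ≤ n - 2 → (fun j => u (j + 1)) k = 0 := by
    rcases Nat.even_or_odd' n with ⟨m, hm | hm⟩
    · obtain ⟨D, rfl⟩ : ∃ D, m = D + 1 := ⟨m - 1, by omega⟩
      subst hm
      rw [show 2 * (D + 1) - 2 = 2 * D by omega] at hT hc ⊢
      have hD : (fun j => u (j + 1)) D = 0 := hmid D (by omega)
      have h3 := cond_even hT hD 0 (by
        intro i h1 h2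
        have := hc i h1 h2
        rwa [show 2 * (D + 1) - 1 - i = 2 * D + 1 - i by omega] at this)
      refine func D _ (fun a ha => hT.diag hD ha) (fun j hj => ?_) (fun m hm => ?_)
      · have := hT.P 0 j (by omega)
        simpa using this
      · rw [h3 m hm, add_zero]
    · obtain ⟨D, rfl⟩ : ∃ D, m = D + 1 := ⟨m - 1, by omega⟩
      subst hm
      rw [show 2 * (D + 1) + 1 - 2 = 2 * D + 1 by omega] at hT hc ⊢
      obtain ⟨h3, h4⟩ := cond_odd hT 0 (by
        intro i h1 h2
        have := hc i h1 h2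
        rwa [show 2 * (D + 1) + 1 - 1 - i = 2 * D + 2 - i by omega] at this)
      refine funcOdd D _ hT (fun k h1 h2 => eq_of_add (h3 k h1 h2)) (fun k hk => ?_)
      rw [h4 k hk, add_zero]
  have := key (j - 1) (by omega)
  simpa [Nat.sub_add_cancel hj] using this

theorem val_add_aux (x y : ZMod 2) : (x + y).val + 2 * (x * y).val = x.val + y.val := by
  revert x y; decide

theorem mat_add (s t : ℕ → ZMod 2) (i j : ℕ) :
    mat (fun k => s k + t k) i j = mat s i j + mat t i j := by
  unfold mat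
  split_ifs with h1 h2
  · rw [entry_eq _ _ _ h1, entry_eq _ _ _ h1, entry_eq _ _ _ h1, mm_add]
  · rw [entry_eq _ _ _ h2, entry_eq _ _ _ h2, entry_eq _ _ _ h2, mm_add]
  · rw [add_zero]

/-- The rows of two palindromic even strings meet in an even number of places. -/
theorem inter_even {y z : ℕ → ZMod 2} {d : ℕ} (hy : Tri y d) (hz : Tri z d)
    (hmid : ∀ m, 2 * m = d → y m = 0) (i : ℕ) :
    Even (∑ b ∈ range (d + 1 - i), (mm y i b * mm z i b).val) := by
  rcases Nat.lt_or_ge d i with h | h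
  · rw [show d + 1 - i = 0 by omega]
    simp
  · obtain ⟨w, rfl⟩ : ∃ w, d = i + w := ⟨d - i, by omega⟩
    rw [show i + w + 1 - i = w + 1 by omega,
      pal_sum w (fun b => mm y i b * mm z i b) (by
        intro b hb
        show mm y i b * mm z i b = mm y i (w - b) * mm z i (w - b)
        rw [hy.P i b (by omega), hz.P i b (by omega), show i + w - i - b = w - b by omega]) (by
        intro m hm
        show mm y i m * mm z i m = 0
        have : mm y i m = 0 := by
          rcases Nat.eq_zero_or_pos i with rfl | hi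
          · exact hmid m (by omega)
          · exact hy.mid hi (by omega)
        rw [this, zero_mul])]
    exact even_two_mul _

theorem pal_pair {n : ℕ} {s t : ℕ → ZMod 2} (hs : ∀ j, 1 ≤ j → j < n → s j = s (n - j))
    (ht : ∀ j, 1 ≤ j → j < n → t j = t (n - j)) (heven : ∀ i, i < n → Even (deg n s i))
    (hmod : ∀ i, i < n → deg n s i % 4 = deg n t i % 4) : ∀ j, 1 ≤ j → j < n → s j = t j := by
  intro j hj hjn
  have hn : 2 ≤ n := by omega
  have heven' : ∀ i, i < n → Even (deg n t i) := by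
    intro i hi
    have h1 := hmod i hi
    have h2 := Nat.even_iff.1 (heven i hi)
    exact Nat.even_iff.2 (by omega)
  have hQs := sym_full heven
  have hQt := sym_full heven'
  have hTs := tri_of_pal hQs hn hs
  have hTt := tri_of_pal hQt hn ht
  have hmid : ∀ m, 2 * m = n - 2 → (fun j => s (j + 1)) m = 0 :=
    mid_of_pal (heven 0 (by omega)) hn hs
  have key := pal_zero (n := n) (u := fun k => s k + t k) (by
    intro k h1 h2
    show s k + t k = s (n - k) + t (n - k)
    rw [hs k h1 h2, ht k h1 h2]) (by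
    intro i hi
    have e1 : deg n (fun k => s k + t k) i + 2 * ∑ j ∈ range n, (mat s i j * mat t i j).val =
        deg n s i + deg n t i := by
      rw [deg_val, deg_val, deg_val, mul_sum, ← sum_add_distrib, ← sum_add_distrib]
      exact sum_congr rfl fun j _ => by rw [mat_add, val_add_aux]
    have e2 : Even (∑ j ∈ range n, (mat s i j * mat t i j).val) := by
      rw [row_split2 (fun x y => (x * y).val) (by simp) hQs hQt hi]
      have h1 := inter_even hTs hTt hmid i
      have h2 := inter_even hTs hTt hmid (n - 1 - i)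
      rw [show n - 2 + 1 - i = n - 1 - i by omega] at h1
      rw [show n - 2 + 1 - (n - 1 - i) = i by omega] at h2
      simp only [mm_shift] at h1 h2
      exact h1.add h2
    obtain ⟨k, hk⟩ := e2
    have h1 := hmod i hi
    have h2 := Nat.even_iff.1 (heven i hi)
    omega)
  exact eq_of_add (key j hj hjn)

end Pool.Agent.DYM
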