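import Pool.Agent.DYM.Sym

/-!
# Rows (uses `deg_val` of Sym.lean as a black box)

`R y d i` is the sum of the row i of the triangle of y (as an integer).

Plan. `deg_rows`: by deg_val, deg n s i = sum_{j<i} (entry s j i).val + 0 + sum_{i<j<n} (entry s i j).val;
  entry s i j = mm s i (j-i) (entry_eq); second sum = sum_{b < n-1-i} (mm s i (b+1)).val; first sum:
  mm s j (i-j) = mm s (N-i) (i-j) by hQ (N = n-1; N - j - (i-j) = N - i), then reverse the order
  (sum_range_reflect), i - j = b + 1.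
`pal_sum`: a palindrome f on [0, w] (values in ZMod 2) with middle 0 has integer sum
  2 * sum_{b < (w+1)/2} (f b).val.
`rows_eta`: row i of the triangle, w = d - i, is a palindrome (Tri.P); for w even its middle mm y i (w/2)
  is 0 (Tri.mid, i + 2 (w/2) = d). So R = 2 eta, eta = sum_{b < (w+1)/2} (mm y i b).val, and in ZMod 2
  sum_{b < m} mm y i b = sum_{b<m} (mm y (i-1) b + mm y (i-1) (b+1)) = mm y (i-1) 0 + mm y (i-1) m,
  m = (w+1)/2; mm y (i-1) 0 = y (i-1) (Tri.row0). For w odd (i-1) + 2 m = d, so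
  mm y (i-1) m = 0 by Tri.mid if i >= 2, and by hmid if i = 1 (then 2 m = d, mm y 0 m = y m).
`cond_even`: d = 2 D. Take i = 2 D - 2 m (i >= 2, i even): eta_i = y (i-1) + mm y (i-1) m, and d + 1 - i = 2 m + 1,
  d - (2m+1) odd: eta_(2m+1) = y (2m). y (i-1) = y (2D-2m-1) = y (2m+1) (P with a = 0),
  mm y (2D-2m-1) m = mm y m (m+1) (the third index is m + 1; use P, Q, S).
`cond_odd`: d = 2 D + 1. i = 2 k + 1 (k <= D): d - i = 2 (D-k): eta_i = y (2k) + mm y (2k) (D-k);
  d + 1 - i = 2 (D-k) + 1 : eta = y (2D-2k) + mm y (2D-2k) k, y (2D-2k) = y (2k+1),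
  mm y (2k) (D-k) = mm y (D-k) (D-k+1), mm y (2D-2k) k = mm y k (k+1).
  i = 2 k, 1 <= k <= D: d - i odd: eta = y (2k-1), d + 1 - i = 2D+2-2k, eta = y (2D+1-2k) = y (2k).
-/

set_option autoImplicit false

namespace Pool.Agent.DYM

open Finset Polynomial

/-- integer sum of the row `i` of the triangle of side `d` generated by `y` -/
def R (y : ℕ → ZMod 2) (d i : ℕ) : ℕ := ∑ b ∈ range (d + 1 - i), (mm y i b).val

private theorem Rows_split (n : ℕ) (s : ℕ → ZMod 2) (i : ℕ) (hi : i < n) :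
    ∑ j ∈ range n, (mat s i j).val =
      ∑ k ∈ range i, (mm s k (i - k)).val + ∑ b ∈ range (n - 1 - i), (mm s i (b + 1)).val := by
  obtain ⟨m, rfl⟩ : ∃ m, n = i + 1 + m := ⟨n - (i + 1), by omega⟩
  rw [Finset.sum_range_add, Finset.sum_range_succ]
  have h0 : mat s i i = 0 := by simp [mat]
  rw [h0, show ((0 : ZMod 2)).val = 0 from rfl, add_zero, show i + 1 + m - 1 - i = m by omega]
  congr 1
  · refine Finset.sum_congr rfl fun k hk => ?_
    have hk := Finset.mem_range.1 hk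
    unfold mat
    rw [if_neg (by omega), if_pos hk, entry_eq s k i hk]
  · refine Finset.sum_congr rfl fun b _ => ?_
    unfold mat
    rw [if_pos (by omega), entry_eq s i _ (by omega), show i + 1 + b - i = b + 1 by omega]

theorem deg_rows {n : ℕ} {s : ℕ → ZMod 2}
    (hQ : ∀ a b, 1 ≤ b → a + b ≤ n - 1 → mm s a b = mm s (n - 1 - a - b) b) {i : ℕ} (hi : i < n) :
    deg n s i = ∑ b ∈ range (n - 1 - i), (mm s i (b + 1)).val +
      ∑ b ∈ range i, (mm s (n - 1 - i) (b + 1)).val := by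
  rw [deg_val, Rows_split n s i hi, add_comm]
  congr 1
  rw [← Finset.sum_range_reflect (fun b => (mm s (n - 1 - i) (b + 1)).val)]
  refine Finset.sum_congr rfl fun k hk => ?_
  have hk := Finset.mem_range.1 hk
  rw [hQ k (i - k) (by omega) (by omega), show n - 1 - k - (i - k) = n - 1 - i by omega,
    show i - 1 - k + 1 = i - k by omega]

theorem pal_sum (w : ℕ) (f : ℕ → ZMod 2) (hf : ∀ b, b ≤ w → f b = f (w - b))
    (hm : ∀ m, 2 * m = w → f m = 0) :
    ∑ b ∈ range (w + 1), (f b).val = 2 * ∑ b ∈ range ((w + 1) / 2), (f b).val := by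
  rcases Nat.even_or_odd' w with ⟨m, rfl | rfl⟩
  · rw [show (2 * m + 1) / 2 = m by omega, show 2 * m + 1 = m + (1 + m) by omega,
      Finset.sum_range_add, Finset.sum_range_add, two_mul]
    congr 1
    rw [Finset.sum_range_one, add_zero, hm m rfl, show ((0 : ZMod 2)).val = 0 from rfl, zero_add,
      ← Finset.sum_range_reflect (fun b => (f b).val)]
    refine Finset.sum_congr rfl fun k hk => ?_
    have hk := Finset.mem_range.1 hk
    rw [hf (m + (1 + k)) (by omega), show 2 * m - (m + (1 + k)) = m - 1 - k by omega]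
  · rw [show (2 * m + 1 + 1) / 2 = m + 1 by omega,
      show 2 * m + 1 + 1 = (m + 1) + (m + 1) by omega, Finset.sum_range_add, two_mul]
    congr 1
    rw [← Finset.sum_range_reflect (fun b => (f b).val)]
    refine Finset.sum_congr rfl fun k hk => ?_
    have hk := Finset.mem_range.1 hk
    rw [hf (m + 1 + k) (by omega), show 2 * m + 1 - (m + 1 + k) = m + 1 - 1 - k by omega]

private theorem Rows_tele (g : ℕ → ZMod 2) (m : ℕ) :
    ∑ b ∈ range m, (g b + g (b + 1)) = g 0 + g m := by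
  induction m with
  | zero => simp [add_self]
  | succ m ih =>
    rw [Finset.sum_range_succ, ih]
    have h := add_self (g m)
    linear_combination h

theorem rows_eta {y : ℕ → ZMod 2} {d : ℕ} (h : Tri y d) (hmid : ∀ m, 2 * m = d → y m = 0) {i : ℕ}
    (h1 : 1 ≤ i) (hi : i ≤ d) :
    ∃ e : ℕ, R y d i = 2 * e ∧
      (e : ZMod 2) = y (i - 1) + if (d - i) % 2 = 0 then mm y (i - 1) ((d - i) / 2) else 0 := by
  obtain ⟨k, rfl⟩ : ∃ k, i = k + 1 := ⟨i - 1, by omega⟩
  refine ⟨∑ b ∈ range ((d - (k + 1) + 1) / 2), (mm y (k + 1) b).val, ?_, ?_⟩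
  · unfold R
    rw [show d + 1 - (k + 1) = d - (k + 1) + 1 by omega]
    refine pal_sum (d - (k + 1)) (fun b => mm y (k + 1) b) ?_ ?_
    · intro b hb
      exact h.P (k + 1) b (by omega)
    · intro m hm
      exact h.mid h1 (by omega)
  · rw [Nat.cast_sum]
    have e1 : ∑ b ∈ range ((d - (k + 1) + 1) / 2), (((mm y (k + 1) b).val : ℕ) : ZMod 2) =
        ∑ b ∈ range ((d - (k + 1) + 1) / 2), (mm y k b + mm y k (b + 1)) := by
      refine Finset.sum_congr rfl fun b _ => ?_
      rw [ZMod.natCast_zmod_val, mm_succ]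
    rw [e1, Rows_tele (fun b => mm y k b), h.row0 (by omega), Nat.add_sub_cancel]
    congr 1
    split_ifs with hp
    · rw [show (d - (k + 1) + 1) / 2 = (d - (k + 1)) / 2 by omega]
    · rcases Nat.eq_zero_or_pos k with rfl | hk
      · rw [mm_zero]
        exact hmid _ (by omega)
      · exact h.mid hk (by omega)

private theorem Rows_sum {y : ℕ → ZMod 2} {d : ℕ} (h : Tri y d) (hmid : ∀ m, 2 * m = d → y m = 0)
    (c : ZMod 2) {i j : ℕ} (hi1 : 1 ≤ i) (hi : i ≤ d) (hj1 : 1 ≤ j) (hj : j ≤ d)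
    (hc : ∃ e : ℕ, R y d i + R y d j = 2 * e ∧ (e : ZMod 2) = c) :
    (y (i - 1) + if (d - i) % 2 = 0 then mm y (i - 1) ((d - i) / 2) else 0) +
      (y (j - 1) + if (d - j) % 2 = 0 then mm y (j - 1) ((d - j) / 2) else 0) = c := by
  obtain ⟨e, he, hec⟩ := hc
  obtain ⟨e1, he1, hc1⟩ := rows_eta h hmid hi1 hi
  obtain ⟨e2, he2, hc2⟩ := rows_eta h hmid hj1 hj
  rw [← hc1, ← hc2, ← hec, ← Nat.cast_add]
  congr 1
  omega

theorem cond_even {y : ℕ → ZMod 2} {D : ℕ} (h : Tri y (2 * D)) (hmid : y D = 0) (c : ZMod 2)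
    (hc : ∀ i, 1 ≤ i → i ≤ 2 * D →
      ∃ e : ℕ, R y (2 * D) i + R y (2 * D) (2 * D + 1 - i) = 2 * e ∧ (e : ZMod 2) = c) :
    ∀ m, m + 1 ≤ D → mm y m (m + 1) = y (2 * m) + y (2 * m + 1) + c := by
  intro m hm
  have hm' : ∀ m, 2 * m = 2 * D → y m = 0 := by
    intro m h
    obtain rfl : m = D := by omega
    exact hmid
  have h1 := Rows_sum h hm' c (i := 2 * D - 2 * m) (j := 2 * m + 1) (by omega) (by omega)
    (by omega) (by omega) (by
      have := hc (2 * D - 2 * m) (by omega) (by omega)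
      rwa [show 2 * D + 1 - (2 * D - 2 * m) = 2 * m + 1 by omega] at this)
  rw [if_pos (by omega), if_neg (by omega), add_zero,
    show (2 * D - (2 * D - 2 * m)) / 2 = m by omega,
    show 2 * m + 1 - 1 = 2 * m by omega] at h1
  have h2 := h.P 0 (2 * D - 2 * m - 1) (by omega)
  rw [mm_zero, mm_zero, show 2 * D - 0 - (2 * D - 2 * m - 1) = 2 * m + 1 by omega] at h2
  have h3 := h.Q (2 * D - 2 * m - 1) m (by omega)
  rw [show 2 * D - (2 * D - 2 * m - 1) - m = m + 1 by omega,
    h.S (a := m + 1) (b := m) (by omega)] at h3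
  rw [h2, h3] at h1
  have h4 := add_self (y (2 * m))
  have h5 := add_self (y (2 * m + 1))
  linear_combination h1 - h4 - h5

theorem cond_odd {y : ℕ → ZMod 2} {D : ℕ} (h : Tri y (2 * D + 1)) (c : ZMod 2)
    (hc : ∀ i, 1 ≤ i → i ≤ 2 * D + 1 →
      ∃ e : ℕ, R y (2 * D + 1) i + R y (2 * D + 1) (2 * D + 2 - i) = 2 * e ∧ (e : ZMod 2) = c) :
    (∀ k, 1 ≤ k → k ≤ D → y (2 * k - 1) + y (2 * k) = c) ∧
    (∀ k, k ≤ D → mm y k (k + 1) + mm y (D - k) (D - k + 1) = y (2 * k) + y (2 * k + 1) + c) := by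
  have hm' : ∀ m, 2 * m = 2 * D + 1 → y m = 0 := by
    intro m h
    omega
  constructor
  · intro k hk1 hk
    have h1 := Rows_sum h hm' c (i := 2 * k) (j := 2 * D + 2 - 2 * k) (by omega) (by omega)
      (by omega) (by omega) (hc (2 * k) (by omega) (by omega))
    rw [if_neg (by omega), if_neg (by omega), add_zero, add_zero] at h1
    have h2 := h.P 0 (2 * D + 2 - 2 * k - 1) (by omega)
    rw [mm_zero, mm_zero, show 2 * D + 1 - 0 - (2 * D + 2 - 2 * k - 1) = 2 * k by omega] at h2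
    rw [h2] at h1
    exact h1
  · intro k hk
    have h1 := Rows_sum h hm' c (i := 2 * k + 1) (j := 2 * D + 2 - (2 * k + 1)) (by omega)
      (by omega) (by omega) (by omega) (hc (2 * k + 1) (by omega) (by omega))
    rw [if_pos (by omega), if_pos (by omega), show 2 * k + 1 - 1 = 2 * k by omega,
      show 2 * D + 2 - (2 * k + 1) - 1 = 2 * D - 2 * k by omega,
      show (2 * D + 1 - (2 * k + 1)) / 2 = D - k by omega,
      show (2 * D + 1 - (2 * D + 2 - (2 * k + 1))) / 2 = k by omega] at h1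
    have h2 := h.P 0 (2 * D - 2 * k) (by omega)
    rw [mm_zero, mm_zero, show 2 * D + 1 - 0 - (2 * D - 2 * k) = 2 * k + 1 by omega] at h2
    have h3 := h.Q (2 * k) (D - k) (by omega)
    rw [show 2 * D + 1 - 2 * k - (D - k) = D - k + 1 by omega,
      h.S (a := D - k + 1) (b := D - k) (by omega)] at h3
    have h4 := h.Q (2 * D - 2 * k) k (by omega)
    rw [show 2 * D + 1 - (2 * D - 2 * k) - k = k + 1 by omega,
      h.S (a := k + 1) (b := k) (by omega)] at h4
    rw [h2, h3, h4] at h1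
    have h5 := add_self (y (2 * k))
    have h6 := add_self (y (2 * k + 1))
    linear_combination h1 - h5 - h6

end Pool.Agent.DYM
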