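import Pool.Agent.DYM.Defs

/-!
# Sym (independent module)

Steinhaus graphs with all degrees even: symmetry of the difference table.

Plan. `parity_mid`: in ZMod 2 the degree of the vertex j + 1 (1 <= j + 1 <= n - 2) is
  sum_{i <= j} a_(i,j+1) + sum_{i > j+1} a_(j+1,i), and a_(i,j+1) = a_(i+1,j+2) + a_(i,j+2),
  a_(j+1,i) = a_(j,i-1) + a_(j,i); telescoping gives
  a_(j+1,j+2) + a_(0,j+2) + a_(j,j+1) + a_(j,n-1) = mm s j 2 + s (j+2) + mm s j (n-1-j)
  (mm s (j+1) 1 + mm s j 1 = mm s j 2). (Compare theorem `parity` and `tele`, `sum_eq_card` in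
  Pool/Agent/Results/MP_79bdd6_co/KnownPattern.lean, may be copied.)
`symQ`: j = 0 in hpar: x N = 0. Put f a b = mm x a b. For p + 2 <= N sum hpar over j with
  coefficients C(p,j) (or: use Lam and the linear functional T(F) = Lam x (X^2 F)):
  T ((1+X)^j + X^(N-2-j) (1+X)^j + X^j) = 0 for j <= N - 2; for F = sum f_j X^j of degree <= N - 2
  T (F(1+X) + F# + F) = 0, F# = sum f_j X^(N-2-j) (1+X)^j. Apply it also to F(1+X), subtract:
  T (F#) = T ((F(1+X))#), for F = X^p: (F(1+X))# = sum_j C(p,j) X^(N-2-j) (1+X)^j =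
  X^(N-2-p) (X + 1 + X)^p = X^(N-2-p). So mm x p (N-p) = x (N-p) for p + 2 <= N.
  Then Q for b >= 2 by induction on a: a = 0 is this (mm x (N-b) b = x b); both sides satisfy
  f (a+1) b = f a b + f a (b+1) (for the right side: mm x (N-a-b) b = mm x (N-a-b-1) b + mm x (N-a-b-1) (b+1)).
`sym_full`: N = n - 1. b >= 2 by symQ and parity_mid. For b = 1: h a = mm s a 1 + mm s (N-1-a) 1
  satisfies h a + h (a+1) = mm s a 2 + mm s (N-2-a) 2 = 0 for a + 2 <= N, so it is constant, and
  h 0 = s 1 + mm s (N-1) 1 = 0: deg 0 = sum_{1<=j<=N} s j, deg N = sum_{i<N} mm s i (N-i), and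
  mm s i (N-i) = s (N-i) for N - i >= 2. (N = 0: nothing; N = 1: a = 0, b = 1 trivial.)
-/

set_option autoImplicit false

namespace Pool.Agent.DYM

open Finset Polynomial

private theorem Sym_val (x : ZMod 2) : (if x = 1 then (1 : ℕ) else 0) = x.val := by
  revert x; decide

theorem deg_cast (n : ℕ) (s : ℕ → ZMod 2) (i : ℕ) :
    (deg n s i : ZMod 2) = ∑ j ∈ range n, mat s i j := by
  unfold deg
  rw [Finset.card_filter, Nat.cast_sum]
  refine Finset.sum_congr rfl fun j _ => ?_
  rcases z2 (mat s i j) with h | h <;> simp [h]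

theorem deg_val (n : ℕ) (s : ℕ → ZMod 2) (i : ℕ) :
    deg n s i = ∑ j ∈ range n, (mat s i j).val := by
  unfold deg
  rw [Finset.card_filter]
  exact Finset.sum_congr rfl fun j _ => Sym_val _

private theorem Sym_tele (f : ℕ → ZMod 2) (m : ℕ) :
    ∑ j ∈ range m, (f (j + 1) + f j) = f m + f 0 := by
  induction m with
  | zero => simp [add_self]
  | succ m ih =>
    rw [Finset.sum_range_succ, ih]
    have h := add_self (f m)
    linear_combination h

private theorem Sym_even {n : ℕ} {s : ℕ → ZMod 2} {i : ℕ} (h : Even (deg n s i)) :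
    ∑ j ∈ range n, mat s i j = 0 := by
  rw [← deg_cast]
  exact (ZMod.natCast_eq_zero_iff_even).2 h

/-- the sum over a row of the matrix -/
private theorem Sym_row (n : ℕ) (s : ℕ → ZMod 2) (i : ℕ) (hi : i < n) :
    ∑ j ∈ range n, mat s i j =
      ∑ k ∈ range i, mm s k (i - k) + ∑ b ∈ range (n - 1 - i), mm s i (b + 1) := by
  obtain ⟨m, rfl⟩ : ∃ m, n = i + 1 + m := ⟨n - (i + 1), by omega⟩
  rw [Finset.sum_range_add, Finset.sum_range_succ]
  have h0 : mat s i i = 0 := by simp [mat]
  rw [h0, add_zero, show i + 1 + m - 1 - i = m by omega]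
  congr 1
  · refine Finset.sum_congr rfl fun k hk => ?_
    have hk := Finset.mem_range.1 hk
    unfold mat
    rw [if_neg (by omega), if_pos hk, entry_eq s k i hk]
  · refine Finset.sum_congr rfl fun b _ => ?_
    unfold mat
    rw [if_pos (by omega), entry_eq s i _ (by omega)]
    congr 1
    omega

theorem parity_mid {n : ℕ} {s : ℕ → ZMod 2} (heven : ∀ i, i < n → Even (deg n s i)) {j : ℕ}
    (hj : j + 2 ≤ n - 1) : mm s j 2 + mm s j (n - 1 - j) + s (j + 2) = 0 := by
  have h := Sym_even (heven (j + 1) (by omega))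
  rw [Sym_row n s (j + 1) (by omega)] at h
  have h1 : ∑ k ∈ range (j + 1), mm s k (j + 1 - k) = mm s (j + 1) 1 + s (j + 2) := by
    have := Sym_tele (fun k => mm s k (j + 2 - k)) (j + 1)
    simp only [mm_zero, Nat.sub_zero] at this
    rw [show j + 2 - (j + 1) = 1 by omega] at this
    rw [← this]
    refine Finset.sum_congr rfl fun k hk => ?_
    have hk := Finset.mem_range.1 hk
    rw [mm_succ, show j + 2 - (k + 1) = j + 1 - k by omega,
      show j + 2 - k = j + 1 - k + 1 by omega]
    have h := add_self (mm s k (j + 1 - k + 1))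
    linear_combination (-1 : ZMod 2) * h
  have h2 : ∑ b ∈ range (n - 1 - (j + 1)), mm s (j + 1) (b + 1) =
      mm s j (n - 1 - j) + mm s j 1 := by
    have := Sym_tele (fun b => mm s j (b + 1)) (n - 1 - (j + 1))
    rw [show n - 1 - (j + 1) + 1 = n - 1 - j by omega] at this
    rw [show mm s j (0 + 1) = mm s j 1 from rfl] at this
    rw [← this]
    refine Finset.sum_congr rfl fun b _ => ?_
    rw [mm_succ]
    ring
  rw [h1, h2, mm_succ] at h
  have h3 := add_self (mm s j 1)
  linear_combination h - h3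

private theorem Sym_two : (2 : (ZMod 2)[X]) = 0 := by
  have : ((2 : ℕ) : (ZMod 2)[X]) = 0 := CharP.cast_eq_zero _ 2
  exact_mod_cast this

private theorem Sym_key (N : ℕ) (x : ℕ → ZMod 2)
    (hpar : ∀ j, j + 2 ≤ N → mm x j 2 + mm x j (N - j) + x (j + 2) = 0) {p : ℕ}
    (hp : p + 2 ≤ N) : mm x p (N - p) = x (N - p) := by
  have hs : ∑ j ∈ range (p + 1), ((p.choose j : ZMod 2)) *
      (mm x j 2 + mm x j (N - j) + x (j + 2)) = 0 := by
    refine Finset.sum_eq_zero fun j hj => ?_
    have hj := Finset.mem_range.1 hj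
    rw [hpar j (by omega), mul_zero]
  have hA : ∑ j ∈ range (p + 1), ((p.choose j : ZMod 2)) * mm x j 2 = x (p + 2) := by
    have e : (X : (ZMod 2)[X]) ^ (p + 2) =
        ∑ j ∈ range (p + 1), (p.choose j : ZMod 2) • (X ^ 2 * (1 + X) ^ j) := by
      have h := add_pow ((1 : (ZMod 2)[X]) + X) 1 p
      have h1 : ((1 : (ZMod 2)[X]) + X + 1) = X := by linear_combination Sym_two
      rw [h1] at h
      rw [pow_add, h, Finset.sum_mul]
      refine Finset.sum_congr rfl fun j _ => ?_
      rw [one_pow, Algebra.smul_def, map_natCast]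
      ring
    have := congrArg (Lam x) e
    rw [Lam_X_pow, map_sum] at this
    rw [this]
    refine Finset.sum_congr rfl fun j _ => ?_
    rw [map_smul, Lam_mm, smul_eq_mul]
  have hB : ∑ j ∈ range (p + 1), ((p.choose j : ZMod 2)) * mm x j (N - j) = x (N - p) := by
    have e : (X : (ZMod 2)[X]) ^ (N - p) =
        ∑ j ∈ range (p + 1), (p.choose j : ZMod 2) • (X ^ (N - j) * (1 + X) ^ j) := by
      have h := add_pow ((1 : (ZMod 2)[X]) + X) X p
      have h1 : ((1 : (ZMod 2)[X]) + X + X) = 1 := by linear_combination X * Sym_two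
      rw [h1, one_pow] at h
      have h' : (X : (ZMod 2)[X]) ^ (N - p) *
          ∑ m ∈ range (p + 1), ((1 : (ZMod 2)[X]) + X) ^ m * X ^ (p - m) * (p.choose m : (ZMod 2)[X])
          = X ^ (N - p) := by rw [← h, mul_one]
      rw [← h', Finset.mul_sum]
      refine Finset.sum_congr rfl fun j hj => ?_
      have hj := Finset.mem_range.1 hj
      rw [Algebra.smul_def, map_natCast, show N - j = (N - p) + (p - j) by omega, pow_add]
      ring
    have := congrArg (Lam x) e
    rw [Lam_X_pow, map_sum] at this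
    rw [this]
    refine Finset.sum_congr rfl fun j _ => ?_
    rw [map_smul, Lam_mm, smul_eq_mul]
  have hC : ∑ j ∈ range (p + 1), ((p.choose j : ZMod 2)) * x (j + 2) = mm x p 2 := by
    have e : (X : (ZMod 2)[X]) ^ 2 * (1 + X) ^ p =
        ∑ j ∈ range (p + 1), (p.choose j : ZMod 2) • (X ^ (j + 2)) := by
      have h := add_pow (X : (ZMod 2)[X]) 1 p
      rw [show (1 : (ZMod 2)[X]) + X = X + 1 by ring, h, Finset.mul_sum]
      refine Finset.sum_congr rfl fun j _ => ?_
      rw [one_pow, Algebra.smul_def, map_natCast]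
      ring
    have := congrArg (Lam x) e
    rw [Lam_mm, map_sum] at this
    rw [this]
    refine Finset.sum_congr rfl fun j _ => ?_
    rw [map_smul, Lam_X_pow, smul_eq_mul]
  simp only [mul_add, Finset.sum_add_distrib] at hs
  rw [hA, hB, hC] at hs
  have h1 := hpar p hp
  linear_combination h1 - hs

theorem symQ (N : ℕ) (x : ℕ → ZMod 2)
    (hpar : ∀ j, j + 2 ≤ N → mm x j 2 + mm x j (N - j) + x (j + 2) = 0) :
    ∀ a b, 2 ≤ b → a + b ≤ N → mm x a b = mm x (N - a - b) b := by
  intro a
  induction a with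
  | zero =>
    intro b hb hab
    have h := Sym_key N x hpar (p := N - b) (by omega)
    rw [show N - (N - b) = b by omega] at h
    rw [mm_zero, Nat.sub_zero, h]
  | succ a ih =>
    intro b hb hab
    rw [mm_succ, ih b hb (by omega), ih (b + 1) (by omega) (by omega)]
    obtain ⟨c, hc⟩ : ∃ c, N - a - b = c + 1 := ⟨N - a - b - 1, by omega⟩
    rw [hc, show N - a - (b + 1) = c by omega, show N - (a + 1) - b = c by omega, mm_succ]
    have h := add_self (mm x c (b + 1))
    linear_combination h

theorem sym_full {n : ℕ} {s : ℕ → ZMod 2} (heven : ∀ i, i < n → Even (deg n s i)) :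
    ∀ a b, 1 ≤ b → a + b ≤ n - 1 → mm s a b = mm s (n - 1 - a - b) b := by
  have hQ := symQ (n - 1) s fun j hj => parity_mid heven hj
  have key : ∀ a, a + 1 ≤ n - 1 → mm s a 1 + mm s (n - 1 - 1 - a) 1 = 0 := by
    intro a
    induction a with
    | zero =>
      intro ha
      have h0 := Sym_even (heven 0 (by omega))
      rw [Sym_row n s 0 (by omega)] at h0
      have h1 := Sym_even (heven (n - 1) (by omega))
      rw [Sym_row n s (n - 1) (by omega)] at h1
      simp only [Finset.range_zero, Finset.sum_empty, zero_add, mm_zero, Nat.sub_self,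
        Nat.sub_zero, add_zero] at h0 h1
      obtain ⟨M, hM⟩ : ∃ M, n - 1 = M + 1 := ⟨n - 2, by omega⟩
      rw [hM] at h0 h1 hQ ⊢
      rw [Finset.sum_range_succ] at h1
      rw [Finset.sum_range_succ'] at h0
      have h2 : ∑ k ∈ range M, mm s k (M + 1 - k) = ∑ k ∈ range M, s (k + 1 + 1) := by
        rw [← Finset.sum_range_reflect (fun k => s (k + 1 + 1))]
        refine Finset.sum_congr rfl fun k hk => ?_
        have hk := Finset.mem_range.1 hk
        rw [hQ k (M + 1 - k) (by omega) (by omega), show M + 1 - k - (M + 1 - k) = 0 by omega,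
          mm_zero]
        congr 1
        omega
      rw [h2, show M + 1 - M = 1 by omega] at h1
      have h3 := add_self (∑ k ∈ range M, s (k + 1 + 1))
      rw [mm_zero, show M + 1 - 1 - 0 = M by omega]
      rw [zero_add] at h0
      linear_combination h0 + h1 - h3
    | succ a ih =>
      intro ha
      have h := ih (by omega)
      obtain ⟨c, hc⟩ : ∃ c, n - 1 - 1 - a = c + 1 := ⟨n - 1 - 1 - a - 1, by omega⟩
      rw [hc] at h
      rw [show n - 1 - 1 - (a + 1) = c by omega, mm_succ]
      rw [mm_succ] at h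
      have h2 := hQ a 2 le_rfl (by omega)
      rw [show n - 1 - a - 2 = c by omega] at h2
      have h3 := add_self (mm s c (1 + 1))
      have h4 : mm s a (1 + 1) = mm s c (1 + 1) := h2
      linear_combination h + h4
  intro a b hb hab
  rcases Nat.lt_or_ge 1 b with h | h
  · exact hQ a b h hab
  · obtain rfl : b = 1 := by omega
    have := eq_of_add (key a hab)
    rw [this]
    congr 1
    omega

/-- the last entry of the string of an even Steinhaus graph on at least 3 vertices is 0 -/
theorem last_zero {n : ℕ} {s : ℕ → ZMod 2} (heven : ∀ i, i < n → Even (deg n s i))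
    (hn : 2 ≤ n) : s (n - 1) = 0 := by
  rcases Nat.lt_or_ge 2 n with h | h
  · have h1 := parity_mid heven (j := 0) (by omega)
    rw [mm_zero, mm_zero, Nat.sub_zero, zero_add] at h1
    have h2 := add_self (s 2)
    linear_combination h1 - h2
  · obtain rfl : n = 2 := by omega
    have h0 := Sym_even (heven 0 (by omega))
    rw [Sym_row 2 s 0 (by omega)] at h0
    simpa using h0

end Pool.Agent.DYM
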