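import Pool.Agent.DYM.OddReg

/-!
# TruncA: strings `w0` with `w` a palindrome: structure and the linear equations
-/

set_option autoImplicit false

namespace Pool.Agent.DYM

open Finset

/-- the string with its entry number 0 set to zero -/
def zer (s : ℕ → ZMod 2) (j : ℕ) : ZMod 2 := if j = 0 then 0 else s j

theorem zer_pos (s : ℕ → ZMod 2) {j : ℕ} (h : 1 ≤ j) : zer s j = s j := by
  rw [zer, if_neg (by omega)]

theorem mm_zer (s : ℕ → ZMod 2) : ∀ a b, 1 ≤ b → mm (zer s) a b = mm s a b := by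
  intro a
  induction a with
  | zero => intro b hb; exact zer_pos s hb
  | succ a ih => intro b hb; rw [mm_succ, mm_succ, ih b hb, ih (b + 1) (by omega)]

theorem tri_of_ext {x : ℕ → ZMod 2} {N : ℕ}
    (hQ : ∀ a b, 1 ≤ b → a + b ≤ N → mm x a b = mm x (N - a - b) b)
    (hpal : ∀ j, j ≤ N → x j = x (N - j)) (hN : x N = 0) : Tri x N := by
  have hP := pal_rows hpal
  have hrow0 : ∀ a, a ≤ N → mm x a 0 = x a := by
    intro a ha
    rcases Nat.lt_or_ge a N with h | h
    · rw [hP a 0 (by omega), Nat.sub_zero, hQ a (N - a) (by omega) (by omega),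
        show N - a - (N - a) = 0 by omega, mm_zero, ← hpal a ha]
    · rcases Nat.eq_zero_or_pos N with h0 | h0
      · obtain rfl : a = 0 := by omega
        rfl
      · obtain ⟨M, rfl⟩ : ∃ M, N = M + 1 := ⟨N - 1, by omega⟩
        obtain rfl : a = M + 1 := by omega
        rw [mm_succ, hP M 0 (by omega), show M + 1 - M - 0 = 0 + 1 by omega, add_self, hN]
  refine ⟨hP, fun a b hab => ?_⟩
  rcases Nat.eq_zero_or_pos b with rfl | hb
  · rw [hrow0 a (by omega), hrow0 _ (by omega), hpal a (by omega), Nat.sub_zero]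
  · exact hQ a b hb hab

/-- `s` is a string of an even graph of the form `w0`, `w` a palindrome -/
structure TP (n : ℕ) (s : ℕ → ZMod 2) : Prop where
  two : 2 ≤ n
  even : ∀ i, i < n → Even (deg n s i)
  pal : ∀ j, 1 ≤ j → j + 1 < n → s j = s (n - 1 - j)

theorem TP.tri {n : ℕ} {s : ℕ → ZMod 2} (h : TP n s) : Tri (zer s) (n - 1) := by
  have h2 := h.two
  have hl := last_zero h.even h2
  have hz : zer s (n - 1) = 0 := by rw [zer_pos s (by omega), hl]
  refine tri_of_ext (fun a b hb hab => ?_) (fun j hj => ?_) ?_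
  · rw [mm_zer s a b hb, mm_zer s _ b hb]
    exact sym_full h.even a b hb hab
  · rcases Nat.eq_zero_or_pos j with rfl | hj0
    · rw [Nat.sub_zero, hz]; rfl
    · rcases Nat.lt_or_ge j (n - 1) with hlt | hge
      · rw [zer_pos s hj0, zer_pos s (by omega)]
        exact h.pal j hj0 (by omega)
      · obtain rfl : j = n - 1 := by omega
        rw [Nat.sub_self, hz]; rfl
  · exact hz

theorem mat_zer (s : ℕ → ZMod 2) (j : ℕ) : mat s 0 j = zer s j := by
  rcases Nat.eq_zero_or_pos j with rfl | h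
  · simp [mat, zer]
  · rw [zer_pos s h, mat, if_pos h]; rfl

theorem TP.mid {n : ℕ} {s : ℕ → ZMod 2} (h : TP n s) : ∀ m, 2 * m = n - 1 → zer s m = 0 := by
  intro m hm
  have h2 := h.two
  have h1 : (deg n s 0 : ZMod 2) = 0 := by
    obtain ⟨k, hk⟩ := h.even 0 (by omega)
    rw [hk]; push_cast; exact add_self _
  rw [deg_cast, sum_congr rfl fun j _ => mat_zer s j, show n = 2 * m + 1 by omega] at h1
  have hT := h.tri
  rw [pal_sum2 m _ fun b hb => by
    have := hT.P 0 b (by omega)
    rw [mm_zero, mm_zero] at this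
    rw [this]
    congr 1
    omega] at h1
  exact h1

/-- full rows, the entry on the diagonal included -/
theorem split_full {n : ℕ} {s t : ℕ → ZMod 2} (hs : TP n s) (ht : TP n t) {i : ℕ} (hi : i < n) :
    ∑ j ∈ range n, (mat s i j * mat t i j).val + 2 * (zer s i * zer t i).val =
      ∑ b ∈ range (n - i), (mm (zer s) i b * mm (zer t) i b).val +
      ∑ b ∈ range (i + 1), (mm (zer s) (n - 1 - i) b * mm (zer t) (n - 1 - i) b).val := by
  rw [row_split2 (fun x y => (x * y).val) (by simp) (sym_full hs.even) (sym_full ht.even) hi,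
    show n - i = n - 1 - i + 1 by omega, sum_range_succ', sum_range_succ']
  simp only [fun a b => mm_zer s a (b + 1) (by omega), fun a b => mm_zer t a (b + 1) (by omega)]
  have e1 : mm (zer s) i 0 = zer s i := hs.tri.row0 (by omega)
  have e2 : mm (zer t) i 0 = zer t i := ht.tri.row0 (by omega)
  have e3 : mm (zer s) (n - 1 - i) 0 = zer s i := by
    rw [hs.tri.row0 (by omega)]
    have := hs.tri.P 0 i (by omega)
    rw [mm_zero, mm_zero] at this
    rw [this]
    congr 1
  have e4 : mm (zer t) (n - 1 - i) 0 = zer t i := by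
    rw [ht.tri.row0 (by omega)]
    have := ht.tri.P 0 i (by omega)
    rw [mm_zero, mm_zero] at this
    rw [this]
    congr 1
  rw [e1, e2, e3, e4]
  ring

theorem TP.inter {n : ℕ} {s t : ℕ → ZMod 2} (hs : TP n s) (ht : TP n t) {i : ℕ} (hi : i < n) :
    Even (∑ j ∈ range n, (mat s i j * mat t i j).val) := by
  have h1 := inter_even hs.tri ht.tri hs.mid i
  have h2 := inter_even hs.tri ht.tri hs.mid (n - 1 - i)
  have hn := hs.two
  rw [show n - 1 + 1 - i = n - i by omega] at h1
  rw [show n - 1 + 1 - (n - 1 - i) = i + 1 by omega] at h2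
  have h3 := split_full hs ht hi
  obtain ⟨p, hp⟩ := h1
  obtain ⟨q, hq⟩ := h2
  rw [hp, hq] at h3
  exact Nat.even_iff.2 (by omega)

theorem TP.deg_full {n : ℕ} {s : ℕ → ZMod 2} (h : TP n s) {i : ℕ} (hi : i < n) :
    deg n s i + 2 * (zer s i).val = R (zer s) (n - 1) i + R (zer s) (n - 1) (n - 1 - i) := by
  have h1 := split_full h h hi
  have hn := h.two
  have sq : ∀ x : ZMod 2, x * x = x := by decide
  simp only [sq] at h1
  rw [R, R, show n - 1 + 1 - i = n - i by omega, show n - 1 + 1 - (n - 1 - i) = i + 1 by omega,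
    ← h1, deg_val]

/-- The equations expressing that all degrees are divisible by 4. -/
theorem TP.eqn {n : ℕ} {s : ℕ → ZMod 2} (h : TP n s) (h4 : ∀ i, i < n → 4 ∣ deg n s i) {i : ℕ}
    (h1 : 1 ≤ i) (hi : i + 1 < n) :
    (zer s (i - 1) + if (n - 1 - i) % 2 = 0 then mm (zer s) (i - 1) ((n - 1 - i) / 2) else 0) +
    (zer s (i + 1) + if i % 2 = 0 then mm (zer s) (n - 2 - i) (i / 2) else 0) = zer s i := by
  have hT := h.tri
  obtain ⟨e, he, he'⟩ := rows_eta hT h.mid h1 (by omega)
  obtain ⟨f, hf, hf'⟩ := rows_eta hT h.mid (i := n - 1 - i) (by omega) (by omega)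
  rw [show n - 1 - (n - 1 - i) = i by omega, show n - 1 - i - 1 = n - 2 - i by omega] at hf'
  have hx : zer s (n - 2 - i) = zer s (i + 1) := by
    have := hT.P 0 (i + 1) (by omega)
    rw [mm_zero, mm_zero] at this
    rw [this]
    congr 1
    omega
  rw [hx] at hf'
  rw [← he', ← hf']
  have hd := h.deg_full (i := i) (by omega)
  obtain ⟨k, hk⟩ := h4 i (by omega)
  rw [he, hf, hk] at hd
  have h5 : e + f = 2 * k + (zer s i).val := by omega
  have h6 : ((e + f : ℕ) : ZMod 2) = ((2 * k + (zer s i).val : ℕ) : ZMod 2) := by rw [h5]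
  push_cast at h6
  rw [h6, show (2 : ZMod 2) = 0 from rfl, zero_mul, zero_add]
  exact ZMod.natCast_zmod_val _

end Pool.Agent.DYM
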