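import Pool.Agent.DYM.TruncA

/-!
# TruncB: the equations `kappa_m = x_(2m-1) + x_(2m) + x_(2m+1)` on symmetric triangles
-/

set_option autoImplicit false

namespace Pool.Agent.DYM

open Finset

/-- multiplication by the invariant form of degree 2 -/
def zz (x : ℕ → ZMod 2) (j : ℕ) : ZMod 2 := x j + x (j + 1) + x (j + 2)

theorem mm_zz (x : ℕ → ZMod 2) : ∀ a b, mm (zz x) a b = mm x a b + mm x a (b + 1) + mm x a (b + 2) := by
  intro a
  induction a with
  | zero => intro b; rfl
  | succ a ih =>
    intro b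
    rw [mm_succ, ih, ih, mm_succ, mm_succ, mm_succ]
    ring

theorem Tri.zz {x : ℕ → ZMod 2} {N : ℕ} (h : Tri x (N + 2)) : Tri (zz x) N where
  P := by
    intro a b hab
    rw [mm_zz, mm_zz, h.P a b (by omega), h.P a (b + 1) (by omega), h.P a (b + 2) (by omega),
      show N + 2 - a - b = N - a - b + 2 by omega, show N + 2 - a - (b + 1) = N - a - b + 1 by omega,
      show N + 2 - a - (b + 2) = N - a - b by omega]
    ring
  Q := by
    intro a b hab
    obtain ⟨c, rfl⟩ : ∃ c, N = a + b + c := ⟨N - a - b, by omega⟩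
    rw [show a + b + c - a - b = c by omega, mm_zz, mm_zz]
    have e1 : mm x c b = mm x (a + 2) b := by
      rw [h.Q c b (by omega)]; congr 1; omega
    have e2 : mm x c (b + 1) = mm x (a + 1) (b + 1) := by
      rw [h.Q c (b + 1) (by omega)]; congr 1; omega
    have e3 : mm x c (b + 2) = mm x a (b + 2) := by
      rw [h.Q c (b + 2) (by omega)]; congr 1; omega
    rw [e1, e2, e3, mm_succ x (a + 1) b, mm_succ x a b, mm_succ x a (b + 1)]
    linear_combination -add_self (mm x a (b + 1)) - add_self (mm x a (b + 2))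

theorem kap_zz (x : ℕ → ZMod 2) (k : ℕ) :
    mm (zz x) k (k + 1) = mm x k (k + 1) + mm x (k + 1) (k + 2) := by
  rw [mm_zz, mm_succ]
  ring

theorem mm_even (x : ℕ → ZMod 2) : ∀ a b, mm (fun j => x (2 * j)) a b = mm x (2 * a) (2 * b) := by
  intro a
  induction a with
  | zero => intro b; rfl
  | succ a ih =>
    intro b
    rw [mm_succ, ih, ih, show 2 * (a + 1) = 2 * a + 1 + 1 by ring, mm_succ, mm_succ, mm_succ,
      show 2 * (b + 1) = 2 * b + 1 + 1 by ring]
    linear_combination -add_self (mm x (2 * a) (2 * b + 1))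

theorem mm_odd (x : ℕ → ZMod 2) : ∀ a b,
    mm (fun j => x (2 * j + 1)) a b = mm x (2 * a) (2 * b + 1) := by
  intro a b
  have h := mm_even (fun j => x (j + 1)) a b
  rw [mm_shift] at h
  exact h

theorem mm_local {x x' : ℕ → ZMod 2} : ∀ a b, (∀ i, b ≤ i → i ≤ b + a → x i = x' i) →
    mm x a b = mm x' a b := by
  intro a
  induction a with
  | zero => intro b h; exact h b le_rfl (by omega)
  | succ a ih =>
    intro b h
    rw [mm_succ, mm_succ, ih b fun i h1 h2 => h i h1 (by omega),
      ih (b + 1) fun i h1 h2 => h i (by omega) (by omega)]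

theorem mm_null {x : ℕ → ZMod 2} {a b : ℕ} (h : ∀ i, b ≤ i → i ≤ b + a → x i = 0) :
    mm x a b = 0 := by
  rw [mm_local (x' := fun _ => 0) a b h]
  have : ∀ a b, mm (fun _ => (0 : ZMod 2)) a b = 0 := by
    intro a
    induction a with
    | zero => intro b; rfl
    | succ a ih => intro b; rw [mm_succ, ih, ih, add_zero]
  exact this a b

theorem pal_of {x : ℕ → ZMod 2} {N : ℕ} (h : Tri x N) {j : ℕ} (hj : j ≤ N) : x j = x (N - j) := by
  have := h.P 0 j (by omega)
  simpa using this

/-- odd side -/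
theorem oddB {K : ℕ} {x : ℕ → ZMod 2} (h : Tri x (2 * K + 1))
    (hE : ∀ k, 1 ≤ k → k ≤ K → mm x k (k + 1) = x (2 * k - 1) + x (2 * k) + x (2 * k + 1)) :
    (∀ j, j ≤ 2 * K + 1 → x j = 0) ∨
    ((2 * K + 1) % 3 = 0 ∧ ∀ j, 1 ≤ j → j ≤ 2 * K → x j = if j % 3 = 0 then 1 else 0) := by
  have hx0 : x 0 = 0 := h.zero (by omega)
  have hpal := fun j (hj : j ≤ 2 * K + 1) => pal_of h hj
  have hlast : x (2 * K + 1) = 0 := by rw [hpal _ le_rfl, Nat.sub_self, hx0]
  rcases Nat.lt_or_ge K 1 with hK | hK
  · left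
    intro j hj
    obtain rfl : K = 0 := by omega
    rcases Nat.eq_zero_or_pos j with rfl | hj0
    · exact hx0
    · obtain rfl : j = 1 := by omega
      exact hlast
  have hx1 : x 1 = 0 := by
    have h1 := hE 1 le_rfl hK
    rw [mm_succ, mm_zero, mm_zero] at h1
    simp only [Nat.mul_one] at h1
    have h2 : x 2 + x 3 = x 1 + x 2 + x 3 := h1
    linear_combination -h2
  rcases Nat.lt_or_ge K 2 with hK2 | hK2
  · left
    obtain rfl : K = 1 := by omega
    intro j hj
    have h2 : x 2 = 0 := by rw [hpal 2 (by omega)]; exact hx1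
    have : j = 0 ∨ j = 1 ∨ j = 2 ∨ j = 3 := by omega
    rcases this with rfl | rfl | rfl | rfl
    · exact hx0
    · exact hx1
    · exact h2
    · exact hlast
  obtain ⟨D, rfl⟩ : ∃ D, K = D + 2 := ⟨K - 2, by omega⟩
  have hz : Tri (zz x) (2 * D + 3) := Tri.zz (N := 2 * D + 3) (by
    rw [show 2 * D + 3 + 2 = 2 * (D + 2) + 1 by ring]; exact h)
  have hz0 : zz x 0 = 0 := hz.zero (by omega)
  have hzp := fun j (hj : j ≤ 2 * D + 3) => pal_of hz hj
  have hx2 : x 2 = 0 := by
    have : x 0 + x 1 + x 2 = 0 := hz0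
    rw [hx0, hx1] at this
    simpa using this
  -- the interior of the triangle of zz x
  have hTy : Tri (fun j => zz x (j + 1) + zz x (j + 2)) (2 * D) := ⟨by
    intro a b hab
    rw [mm_comp, mm_comp, hz.P (a + 1) (b + 1) (by omega)]
    congr 1
    omega, by
    intro a b hab
    rw [mm_comp, mm_comp, hz.Q (a + 1) (b + 1) (by omega)]
    congr 1
    omega⟩
  have hyD : (fun j => zz x (j + 1) + zz x (j + 2)) D = 0 := by
    show zz x (D + 1) + zz x (D + 2) = 0
    rw [hzp (D + 1) (by omega), show 2 * D + 3 - (D + 1) = D + 2 by omega]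
    exact add_self _
  have hkz : ∀ k, 1 ≤ k → k ≤ D + 1 → mm (zz x) k (k + 1) = zz x (2 * k - 1) + zz x (2 * k + 1) := by
    intro k h1 h2
    obtain ⟨m, rfl⟩ : ∃ m, k = m + 1 := ⟨k - 1, by omega⟩
    have e1 := hE (m + 1) (by omega) (by omega)
    have e2 := hE (m + 2) (by omega) (by omega)
    rw [show 2 * (m + 1) - 1 = 2 * m + 1 by omega, show 2 * (m + 1) = 2 * m + 2 by ring] at e1
    rw [show 2 * (m + 2) - 1 = 2 * m + 3 by omega, show 2 * (m + 2) = 2 * m + 4 by ring] at e2
    rw [show 2 * (m + 1) - 1 = 2 * m + 1 by omega, show 2 * (m + 1) + 1 = 2 * m + 3 by ring,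
      kap_zz, show m + 1 + 1 = m + 2 by ring, show m + 1 + 2 = m + 2 + 1 by ring, e2,
      show m + 2 = m + 1 + 1 by ring, e1]
    rfl
  have hy0 := func D _ (fun a ha => hTy.diag hyD ha) (fun j hj => by
    have := hTy.P 0 j (by omega)
    simpa using this) (fun m hm => by
    rw [mm_comp, hkz (m + 1) (by omega) (by omega)]
    simp only [show 2 * (m + 1) - 1 = 2 * m + 1 by omega, show 2 * (m + 1) + 1 = 2 * m + 3 by ring,
      show 2 * m + 1 + 1 = 2 * m + 2 by ring, show 2 * m + 1 + 2 = 2 * m + 3 by ring]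
    linear_combination -add_self (zz x (2 * m + 2)))
  have hconst : ∀ j, 1 ≤ j → j ≤ 2 * D + 2 → zz x j = zz x 1 := by
    intro j h1
    induction j, h1 using Nat.le_induction with
    | base => intro _; rfl
    | succ j h1 ih =>
      intro h2
      rw [← ih (by omega)]
      have := hy0 (j - 1) (by omega)
      simp only [show j - 1 + 1 = j by omega, show j - 1 + 2 = j + 1 by omega] at this
      exact (eq_of_add this).symm
  have hrec : ∀ j, x (j + 2) = zz x j + x j + x (j + 1) := by
    intro j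
    show x (j + 2) = x j + x (j + 1) + x (j + 2) + x j + x (j + 1)
    linear_combination -add_self (x j) - add_self (x (j + 1))
  rcases z2 (zz x 1) with hv | hv
  · left
    have key : ∀ j, j + 1 ≤ 2 * D + 4 → x j = 0 ∧ x (j + 1) = 0 := by
      intro j
      induction j with
      | zero => intro _; exact ⟨hx0, hx1⟩
      | succ j ih =>
        intro hj
        obtain ⟨h1, h2⟩ := ih (by omega)
        refine ⟨h2, ?_⟩
        rw [hrec j, h1, h2]
        rcases Nat.eq_zero_or_pos j with rfl | hj0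
        · rw [hz0]; rfl
        · rw [hconst j hj0 (by omega), hv]; rfl
    intro j hj
    rcases Nat.lt_or_ge j (2 * D + 4) with hlt | hge
    · exact (key j (by omega)).1
    · rcases Nat.eq_or_lt_of_le hge with he | he
      · rw [← he]; exact (key (2 * D + 3) (by omega)).2
      · obtain rfl : j = 2 * (D + 2) + 1 := by omega
        exact hlast
  · have key : ∀ j, j + 1 ≤ 2 * D + 4 → x j = (if j % 3 = 0 ∧ j ≠ 0 then 1 else 0) ∧
        x (j + 1) = (if (j + 1) % 3 = 0 then 1 else 0) := by
      intro j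
      induction j with
      | zero => intro _; exact ⟨by simp [hx0], by simp [hx1]⟩
      | succ j ih =>
        intro hj
        obtain ⟨h1, h2⟩ := ih (by omega)
        refine ⟨by rw [h2]; congr 1; simp, ?_⟩
        rw [show j + 1 + 1 = j + 2 by ring, hrec j, h1, h2]
        rcases Nat.eq_zero_or_pos j with rfl | hj0
        · rw [hz0]; rfl
        · rw [hconst j hj0 (by omega), hv]
          have h3 : j % 3 = 0 ∨ j % 3 = 1 ∨ j % 3 = 2 := by omega
          rcases h3 with h3 | h3 | h3
          · rw [if_pos ⟨h3, by omega⟩, if_neg (by omega), if_neg (by omega)]; rfl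
          · rw [if_neg (by omega), if_neg (by omega), if_pos (by omega)]; rfl
          · rw [if_neg (by omega), if_pos (by omega), if_neg (by omega)]; rfl
    have hf : ∀ j, 1 ≤ j → j ≤ 2 * (D + 2) → x j = if j % 3 = 0 then 1 else 0 := by
      intro j h1 h2
      have := (key (j - 1) (by omega)).2
      rwa [show j - 1 + 1 = j by omega] at this
    right
    refine ⟨?_, hf⟩
    have h1 := hf (2 * D + 2) (by omega) (by omega)
    rw [hpal (2 * D + 2) (by omega), show 2 * (D + 2) + 1 - (2 * D + 2) = 3 by omega,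
      hf 3 (by omega) (by omega), if_pos (by norm_num)] at h1
    by_contra hne
    rw [if_neg (by omega)] at h1
    exact one_ne_zero h1

/-- even side -/
theorem evenB {K : ℕ} {x : ℕ → ZMod 2} (h : Tri x (2 * K)) (hmid : x K = 0)
    (hO : ∀ j, j + 1 ≤ K → x (2 * j) + x (2 * j + 1) + x (2 * j + 2) = 0)
    (hE : ∀ k, 1 ≤ k → k + 1 ≤ K → mm x k (k + 1) + mm x (K - k) (K - k + 1) =
      x (2 * k - 1) + x (2 * k) + x (2 * k + 1)) :
    (∀ j, j ≤ 2 * K → x j = 0) ∨
    ((2 * K) % 3 = 0 ∧ ∀ j, j ≤ 2 * K → x j = if j % 3 = 0 then 0 else 1) := by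
  rcases Nat.eq_zero_or_pos K with rfl | hK
  · left
    intro j hj
    obtain rfl : j = 0 := by omega
    exact hmid
  have hx0 : x 0 = 0 := h.zero (by omega)
  have hpal := fun j (hj : j ≤ 2 * K) => pal_of h hj
  have hlast : x (2 * K) = 0 := by rw [hpal _ le_rfl, Nat.sub_self, hx0]
  obtain ⟨M, rfl⟩ : ∃ M, K = M + 1 := ⟨K - 1, by omega⟩
  have hz : Tri (zz x) (2 * M) := Tri.zz (N := 2 * M) (by
    rw [show 2 * M + 2 = 2 * (M + 1) by ring]; exact h)
  have hze : ∀ j, j ≤ M → zz x (2 * j) = 0 := fun j hj => hO j (by omega)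
  have hkz : ∀ k, mm (zz x) k (k + 1) = mm x k (k + 1) + mm x (k + 1) (k + 2) := kap_zz x
  -- it is enough to show that zz x vanishes
  suffices hall : ∀ j, j ≤ 2 * M → zz x j = 0 by
    have hrec : ∀ j, j ≤ 2 * M → x (j + 2) = x j + x (j + 1) := by
      intro j hj
      have h1 : x j + x (j + 1) + x (j + 2) = 0 := hall j hj
      linear_combination h1 - add_self (x j) - add_self (x (j + 1))
    rcases z2 (x 1) with hv | hv
    · left
      have key : ∀ j, j + 1 ≤ 2 * (M + 1) → x j = 0 ∧ x (j + 1) = 0 := by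
        intro j
        induction j with
        | zero => intro _; exact ⟨hx0, hv⟩
        | succ j ih =>
          intro hj
          obtain ⟨h1, h2⟩ := ih (by omega)
          refine ⟨h2, ?_⟩
          rw [show j + 1 + 1 = j + 2 by ring, hrec j (by omega), h1, h2, add_zero]
      intro j hj
      rcases Nat.eq_zero_or_pos j with rfl | hj0
      · exact hx0
      · have := (key (j - 1) (by omega)).2
        rwa [show j - 1 + 1 = j by omega] at this
    · right
      have key : ∀ j, j + 1 ≤ 2 * (M + 1) → x j = (if j % 3 = 0 then 0 else 1) ∧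
          x (j + 1) = (if (j + 1) % 3 = 0 then 0 else 1) := by
        intro j
        induction j with
        | zero => intro _; exact ⟨by simp [hx0], by simp [hv]⟩
        | succ j ih =>
          intro hj
          obtain ⟨h1, h2⟩ := ih (by omega)
          refine ⟨h2, ?_⟩
          rw [show j + 1 + 1 = j + 2 by ring, hrec j (by omega), h1, h2]
          have h3 : j % 3 = 0 ∨ j % 3 = 1 ∨ j % 3 = 2 := by omega
          rcases h3 with h3 | h3 | h3
          · rw [if_pos h3, if_neg (by omega), if_neg (by omega)]; rfl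
          · rw [if_neg (by omega), if_neg (by omega), if_pos (by omega)]; rfl
          · rw [if_neg (by omega), if_pos (by omega), if_neg (by omega)]; rfl
      have hf : ∀ j, j ≤ 2 * (M + 1) → x j = if j % 3 = 0 then 0 else 1 := by
        intro j h2
        rcases Nat.eq_zero_or_pos j with rfl | hj0
        · simp [hx0]
        · have := (key (j - 1) (by omega)).2
          rwa [show j - 1 + 1 = j by omega] at this
      refine ⟨?_, hf⟩
      have h1 := hf (2 * (M + 1)) le_rfl
      rw [hlast] at h1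
      by_contra hne
      rw [if_neg hne] at h1
      exact zero_ne_one h1
  rcases Nat.eq_zero_or_pos M with rfl | hM
  · intro j hj
    obtain rfl : j = 0 := by omega
    exact hze 0 le_rfl
  obtain ⟨L, rfl⟩ : ∃ L, M = L + 1 := ⟨M - 1, by omega⟩
  -- w j = zz x (2 j + 1), side L
  set w : ℕ → ZMod 2 := fun j => zz x (2 * j + 1) with hw
  have hwm : ∀ a b, mm w a b = mm (zz x) (2 * a) (2 * b + 1) := mm_odd (zz x)
  have hzz2 : ∀ c b, b + c ≤ L → mm (zz x) (2 * c) (2 * b + 2) = 0 := by
    intro c b hbc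
    rw [show 2 * b + 2 = 2 * (b + 1) by ring, ← mm_even (zz x) c (b + 1)]
    exact mm_null fun i h1 h2 => hze i (by omega)
  have hTw : Tri w L := ⟨pal_rows fun j hj => by
    show zz x (2 * j + 1) = zz x (2 * (L - j) + 1)
    rw [pal_of hz (j := 2 * j + 1) (by omega)]
    congr 1
    omega, by
    intro a b hab
    rw [hwm, hwm, hz.Q (2 * a) (2 * b + 1) (by omega),
      show 2 * (L + 1) - 2 * a - (2 * b + 1) = 2 * (L - a - b) + 1 by omega, mm_succ,
      show 2 * b + 1 + 1 = 2 * b + 2 by ring, hzz2 (L - a - b) b (by omega), add_zero]⟩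
  have hk2 : ∀ r, 2 * r ≤ L + 1 → mm (zz x) (2 * r) (2 * r + 1) = mm w r r := by
    intro r _
    rw [hwm]
  have hk1 : ∀ r, 2 * r ≤ L → mm (zz x) (2 * r + 1) (2 * r + 2) = mm w r (r + 1) := by
    intro r hr
    rw [hwm, mm_succ, hzz2 r r (by omega), zero_add]
    congr 1
  have hsum : ∀ k, 1 ≤ k → k ≤ L → mm (zz x) k (k + 1) + mm (zz x) (L + 1 - k) (L + 1 - k + 1) =
      w (k - 1) + w k := by
    intro k h1 h2
    have e1 := hE k h1 (by omega)
    have e2 := hE (k + 1) (by omega) (by omega)
    rw [hkz, hkz]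
    obtain ⟨m, rfl⟩ : ∃ m, k = m + 1 := ⟨k - 1, by omega⟩
    rw [show L + 1 + 1 - (m + 1) = L + 1 - (m + 1) + 1 by omega,
      show 2 * (m + 1) - 1 = 2 * m + 1 by omega, show 2 * (m + 1) = 2 * m + 2 by ring] at e1
    rw [show L + 1 + 1 - (m + 1 + 1) = L + 1 - (m + 1) by omega,
      show 2 * (m + 1 + 1) - 1 = 2 * m + 3 by omega, show 2 * (m + 1 + 1) = 2 * m + 4 by ring] at e2
    have g1 : w (m + 1 - 1) = x (2 * m + 1) + x (2 * m + 2) + x (2 * m + 2 + 1) := rfl
    have g2 : w (m + 1) = x (2 * m + 3) + x (2 * m + 4) + x (2 * m + 4 + 1) := rfl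
    rw [g1, g2, ← e1, ← e2]
    rw [show m + 1 + 1 + 1 = m + 1 + 2 by ring,
      show L + 1 - (m + 1) + 1 + 1 = L + 1 - (m + 1) + 2 by ring]
    ring
  have hwall : ∀ j, j ≤ L → w j = 0 := by
    rcases Nat.even_or_odd' L with ⟨D, hD | hD⟩
    · -- L = 2 D, K even
      subst hD
      have hwD : w D = 0 := by
        show x (2 * D + 1) + x (2 * D + 2) + x (2 * D + 3) = 0
        rw [show 2 * D + 2 = 2 * D + 1 + 1 by ring, hmid, hpal (2 * D + 1) (by omega),
          show 2 * (2 * D + 1 + 1) - (2 * D + 1) = 2 * D + 3 by omega, add_zero]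
        exact add_self _
      refine func D w (fun a ha => hTw.diag hwD ha) (fun j hj => pal_of hTw hj) (fun m hm => ?_)
      have h1 := hsum (2 * m + 1) (by omega) (by omega)
      rw [hk1 m (by omega), show 2 * D + 1 - (2 * m + 1) = 2 * (D - m) by omega,
        hk2 (D - m) (by omega), hTw.diag hwD (by omega), add_zero] at h1
      exact h1
    · -- L = 2 D + 1, K odd
      subst hD
      refine funcOdd D w hTw (fun k h1 h2 => ?_) (fun k hk => ?_)
      · have e1 := hsum (2 * k) (by omega) (by omega)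
        have e2 : mm w k k = 0 := by
          rw [hTw.P k k (by omega), hTw.S (by omega)]
          exact hTw.mid (by omega) (by omega)
        have e3 : mm w (D + 1 - k) (D + 1 - k) = 0 := by
          rw [hTw.P _ _ (by omega), hTw.S (by omega)]
          exact hTw.mid (by omega) (by omega)
        rw [show 2 * D + 1 + 1 - 2 * k = 2 * (D + 1 - k) by omega, hk2 k (by omega),
          hk2 (D + 1 - k) (by omega), e2, e3, add_zero] at e1
        exact eq_of_add e1.symm
      · have e1 := hsum (2 * k + 1) (by omega) (by omega)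
        rw [hk1 k (by omega), show 2 * D + 1 + 1 - (2 * k + 1) = 2 * (D - k) + 1 by omega,
          show 2 * (D - k) + 1 + 1 = 2 * (D - k) + 2 by ring, hk1 (D - k) (by omega)] at e1
        exact e1
  intro j hj
  rcases Nat.even_or_odd' j with ⟨i, hi | hi⟩
  · rw [hi]; exact hze i (by omega)
  · rw [hi]; exact hwall i (by omega)

end Pool.Agent.DYM
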