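import Pool.Agent.DYM.TruncB
import Pool.Agent.DYM.Bridge

/-!
# TruncC: even strings `w0`, `w` a palindrome, whose degrees agree modulo 4
-/

set_option autoImplicit false

namespace Pool.Agent.DYM

open Finset

theorem TP.zero_or {n : ℕ} {u : ℕ → ZMod 2} (h : TP n u) (h4 : ∀ i, i < n → 4 ∣ deg n u i) :
    (∀ j, 1 ≤ j → j < n → u j = 0) ∨
    (n % 3 = 1 ∧ ∀ j, 1 ≤ j → j + 1 < n →
      u j = if n % 2 = 0 then (if j % 3 = 0 then 1 else 0) else (if j % 3 = 0 then 0 else 1)) := by
  have hn := h.two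
  have hT := h.tri
  have heq := fun i (h1 : 1 ≤ i) (h2 : i + 1 < n) => h.eqn h4 h1 h2
  rcases Nat.even_or_odd' n with ⟨m, hm | hm⟩
  · -- n even
    obtain ⟨K, rfl⟩ : ∃ K, m = K + 1 := ⟨m - 1, by omega⟩
    subst hm
    rw [show 2 * (K + 1) - 1 = 2 * K + 1 by omega] at hT
    have hE : ∀ k, 1 ≤ k → k ≤ K →
        mm (zer u) k (k + 1) = zer u (2 * k - 1) + zer u (2 * k) + zer u (2 * k + 1) := by
      intro k h1 h2
      have e := heq (2 * k) (by omega) (by omega)
      rw [if_neg (by omega), if_pos (by omega), show 2 * (K + 1) - 2 - 2 * k = 2 * K - 2 * k by omega,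
        show 2 * k / 2 = k by omega] at e
      have e2 : mm (zer u) (2 * K - 2 * k) k = mm (zer u) k (k + 1) := by
        rw [hT.Q _ k (by omega), hT.S (by omega)]
        congr 1
        omega
      rw [e2] at e
      linear_combination e - add_self (zer u (2 * k - 1)) - add_self (zer u (2 * k + 1))
    rcases oddB hT hE with h0 | ⟨h3, h0⟩
    · left
      intro j h1 h2
      rw [← zer_pos u h1]
      exact h0 j (by omega)
    · right
      refine ⟨by omega, fun j h1 h2 => ?_⟩
      rw [if_pos (by omega), ← zer_pos u h1]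
      exact h0 j h1 (by omega)
  · -- n odd
    subst hm
    have hmid := h.mid m (by omega)
    rw [show 2 * m + 1 - 1 = 2 * m by omega] at hT
    have hO : ∀ j, j + 1 ≤ m → zer u (2 * j) + zer u (2 * j + 1) + zer u (2 * j + 2) = 0 := by
      intro j hj
      have e := heq (2 * j + 1) (by omega) (by omega)
      rw [if_neg (by omega), if_neg (by omega), show 2 * j + 1 - 1 = 2 * j by omega,
        show 2 * j + 1 + 1 = 2 * j + 2 by ring] at e
      linear_combination e + add_self (zer u (2 * j + 1))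
    have hE : ∀ k, 1 ≤ k → k + 1 ≤ m → mm (zer u) k (k + 1) + mm (zer u) (m - k) (m - k + 1) =
        zer u (2 * k - 1) + zer u (2 * k) + zer u (2 * k + 1) := by
      intro k h1 h2
      have e := heq (2 * k) (by omega) (by omega)
      rw [if_pos (by omega), if_pos (by omega), show (2 * m + 1 - 1 - 2 * k) / 2 = m - k by omega,
        show 2 * m + 1 - 2 - 2 * k = 2 * m - 2 * k - 1 by omega, show 2 * k / 2 = k by omega] at e
      have e2 : mm (zer u) (2 * m - 2 * k - 1) k = mm (zer u) k (k + 1) := by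
        rw [hT.Q _ k (by omega), hT.S (by omega)]
        congr 1
        omega
      have e3 : mm (zer u) (2 * k - 1) (m - k) = mm (zer u) (m - k) (m - k + 1) := by
        rw [hT.Q _ (m - k) (by omega), hT.S (by omega)]
        congr 1
        omega
      rw [e2, e3] at e
      linear_combination e - add_self (zer u (2 * k - 1)) - add_self (zer u (2 * k + 1))
    rcases evenB hT hmid hO hE with h0 | ⟨h3, h0⟩
    · left
      intro j h1 h2
      rw [← zer_pos u h1]
      exact h0 j (by omega)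
    · right
      refine ⟨by omega, fun j h1 h2 => ?_⟩
      rw [if_neg (by omega), ← zer_pos u h1]
      exact h0 j (by omega)

theorem TP.pair {n : ℕ} {s t : ℕ → ZMod 2} (hs : TP n s) (ht : TP n t)
    (hmod : ∀ i, i < n → deg n s i % 4 = deg n t i % 4) :
    (∀ j, 1 ≤ j → j < n → s j = t j) ∨
    (n % 3 = 1 ∧ ∀ j, 1 ≤ j → j + 1 < n → s j + t j =
      if n % 2 = 0 then (if j % 3 = 0 then 1 else 0) else (if j % 3 = 0 then 0 else 1)) := by
  have key : ∀ i, i < n → 4 ∣ deg n (fun k => s k + t k) i := by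
    intro i hi
    have e1 : deg n (fun k => s k + t k) i + 2 * ∑ j ∈ range n, (mat s i j * mat t i j).val =
        deg n s i + deg n t i := by
      rw [deg_val, deg_val, deg_val, mul_sum, ← sum_add_distrib, ← sum_add_distrib]
      exact sum_congr rfl fun j _ => by rw [mat_add, val_add_aux]
    obtain ⟨k, hk⟩ := hs.inter ht hi
    have h1 := hmod i hi
    have h2 := Nat.even_iff.1 (hs.even i hi)
    omega
  have hu : TP n (fun k => s k + t k) := ⟨hs.two, fun i hi => by
    obtain ⟨k, hk⟩ := key i hi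
    exact ⟨2 * k, by omega⟩, fun j h1 h2 => by
    show s j + t j = s (n - 1 - j) + t (n - 1 - j)
    rw [hs.pal j h1 h2, ht.pal j h1 h2]⟩
  rcases hu.zero_or key with h | h
  · exact Or.inl fun j h1 h2 => eq_of_add (h j h1 h2)
  · exact Or.inr h

theorem trunc_matrix (n : ℕ) (A B : ℕ → ℕ → ZMod 2)
    (hA1 : ∀ i, i < n → A i i = 0)
    (hA2 : ∀ i j, i < n → j < n → A i j = A j i)
    (hA3 : ∀ i j, i < j → j + 1 < n → A (i + 1) (j + 1) = A i j + A i (j + 1))
    (hB1 : ∀ i, i < n → B i i = 0)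
    (hB2 : ∀ i j, i < n → j < n → B i j = B j i)
    (hB3 : ∀ i j, i < j → j + 1 < n → B (i + 1) (j + 1) = B i j + B i (j + 1))
    (hmod : ∀ i, i < n → ((Finset.range n).filter (fun j => A i j = 1)).card ≡
      ((Finset.range n).filter (fun j => B i j = 1)).card [MOD 4])
    (heven : ∀ i, i < n → Even ((Finset.range n).filter (fun j => A i j = 1)).card)
    (hA4 : ∀ j, 1 ≤ j → j + 1 < n → A 0 j = A 0 (n - 1 - j))
    (hB4 : ∀ j, 1 ≤ j → j + 1 < n → B 0 j = B 0 (n - 1 - j)) :
    (∀ j, j < n → A 0 j = B 0 j) ∨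
    (n % 3 = 1 ∧ ∀ j, 1 ≤ j → j + 1 < n → A 0 j + B 0 j =
      if n % 2 = 0 then (if j % 3 = 0 then 1 else 0) else (if j % 3 = 0 then 0 else 1)) := by
  rcases Nat.lt_or_ge n 2 with hn | hn
  · left
    intro j hj
    obtain rfl : j = 0 := by omega
    rw [hA1 0 hj, hB1 0 hj]
  have hm' : ∀ i, i < n → deg n (fun k => A 0 k) i % 4 = deg n (fun k => B 0 k) i % 4 := by
    intro i hi
    rw [← card_eq_deg hA1 hA2 hA3 hi, ← card_eq_deg hB1 hB2 hB3 hi]
    exact hmod i hi
  have hA : TP n (fun k => A 0 k) := ⟨hn, fun i hi => by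
    rw [← card_eq_deg hA1 hA2 hA3 hi]; exact heven i hi, hA4⟩
  have hB : TP n (fun k => B 0 k) := ⟨hn, fun i hi => by
    have h1 := hm' i hi
    have h2 := Nat.even_iff.1 (hA.even i hi)
    exact Nat.even_iff.2 (by omega), hB4⟩
  rcases hA.pair hB hm' with h | h
  · left
    intro j hj
    rcases Nat.eq_zero_or_pos j with rfl | h0
    · rw [hA1 0 hj, hB1 0 hj]
    · exact h j h0 hj
  · exact Or.inr h

end Pool.Agent.DYM
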