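import Pool.Agent.DYM.Defs

/-!
# Val: 2-adic multiplicities at X = 1
-/

set_option autoImplicit false

namespace Pool.Agent.DYM

open Finset Polynomial

private theorem Val_uniq {e e' o o' : ℕ} (ho : Odd o) (ho' : Odd o') (h : 2 ^ e * o = 2 ^ e' * o') :
    e = e' := by
  have key : ∀ {e e' o o' : ℕ}, Odd o → Odd o' → 2 ^ e * o = 2 ^ e' * o' → ¬ e < e' := by
    intro e e' o o' ho ho' h hlt
    obtain ⟨c, rfl⟩ := Nat.exists_eq_add_of_lt hlt
    have h1 : 2 ^ e * o = 2 ^ e * (2 * (2 ^ c * o')) := by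
      rw [h]; ring
    have h2 := Nat.eq_of_mul_eq_mul_left (by positivity) h1
    rw [h2] at ho
    exact (Nat.not_odd_iff_even.2 (even_two_mul _)) ho
  rcases lt_trichotomy e e' with h1 | h1 | h1
  · exact absurd h1 (key ho ho' h)
  · exact h1
  · exact absurd h1 (key ho' ho h.symm)

private theorem Val_ne {j K l l' a b m m' : ℕ} (hl : l < l') (hl' : l' ≤ j) (hK : 4 * j < K)
    (hm : Odd m) (ha : K - 4 * l = 2 ^ a * m) (hb : K - 4 * l' = 2 ^ b * m') :
    2 * (j - l) + 2 ^ a ≠ 2 * (j - l') + 2 ^ b := by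
  intro h
  have h1 : 2 ^ b = 2 ^ a + 2 * (l' - l) := by omega
  have h2 : 2 ^ a < 2 ^ b := by omega
  have h3 : a < b := (Nat.pow_lt_pow_iff_right (by norm_num)).1 h2
  obtain ⟨c, rfl⟩ := Nat.exists_eq_add_of_lt h3
  have h4 : 2 ^ a * m + 2 * 2 ^ a = 2 ^ (a + c + 1) * m' + 2 * 2 ^ (a + c + 1) := by
    rw [← ha, ← hb]; omega
  have h5 : 2 ^ a * (m + 2) = 2 ^ a * (2 * (2 ^ c * (m' + 2))) := by
    calc 2 ^ a * (m + 2) = 2 ^ a * m + 2 * 2 ^ a := by ring
      _ = 2 ^ (a + c + 1) * m' + 2 * 2 ^ (a + c + 1) := h4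
      _ = 2 ^ a * (2 * (2 ^ c * (m' + 2))) := by ring
  have h6 := Nat.eq_of_mul_eq_mul_left (by positivity) h5
  have h7 : Even (m + 2) := by rw [h6]; exact even_two_mul _
  have h8 : Odd (m + 2) := hm.add_even even_two
  exact (Nat.not_even_iff_odd.2 h8) h7

private theorem Val_fac (e o : ℕ) (ho : Odd o) :
    ∃ q : (ZMod 2)[X], q.eval 1 = 1 ∧ (1 + X ^ (2 ^ e * o) : (ZMod 2)[X]) = (1 + X) ^ (2 ^ e) * q := by
  refine ⟨(∑ i ∈ range o, (X : (ZMod 2)[X]) ^ i) ^ (2 ^ e), ?_, ?_⟩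
  · rw [eval_pow, eval_finsetSum]
    have : ∑ i ∈ range o, eval 1 ((X : (ZMod 2)[X]) ^ i) = (o : ZMod 2) := by
      simp
    rw [this]
    obtain ⟨r, rfl⟩ := ho
    have h2 : (2 : ZMod 2) = 0 := by decide
    push_cast
    rw [h2]
    simp
  · rw [← mul_pow]
    have h1 : (1 + X : (ZMod 2)[X]) * ∑ i ∈ range o, (X : (ZMod 2)[X]) ^ i = 1 + X ^ o := by
      have h := mul_geom_sum (X : (ZMod 2)[X]) o
      have h2 : (X - 1 : (ZMod 2)[X]) = 1 + X := by
        rw [CharTwo.sub_eq_add, add_comm]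
      have h3 : (X ^ o - 1 : (ZMod 2)[X]) = 1 + X ^ o := by
        rw [CharTwo.sub_eq_add, add_comm]
      rw [h2, h3] at h
      exact h
    rw [h1, add_pow_char_pow, one_pow, ← pow_mul, mul_comm o]

theorem val_lemma (j K : ℕ) (a : ℕ → ZMod 2) (hK : 4 * j < K) (haj : a j = 1)
    (hdvd : ((1 + X) ^ (2 * j + 2) : (ZMod 2)[X]) ∣
      ∑ l ∈ range (j + 1), C (a l) * X ^ (3 * l) * (1 + X) ^ (2 * (j - l)) *
        (1 + X ^ (K - 4 * l)))
    (e o : ℕ) (ho : Odd o) (he : K - 4 * j = 2 ^ e * o) : 2 * j + 2 ≤ 2 ^ e := by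
  by_contra hcon
  push Not at hcon
  have hex : ∀ l : ℕ, ∃ k m : ℕ, l ≤ j → Odd m ∧ K - 4 * l = 2 ^ k * m := by
    intro l
    by_cases hl : l ≤ j
    · obtain ⟨k, m, hm, h⟩ := Nat.exists_eq_two_pow_mul_odd (n := K - 4 * l) (by omega)
      exact ⟨k, m, fun _ => ⟨hm, h⟩⟩
    · exact ⟨0, 0, fun h => absurd h hl⟩
  choose k m hkm using hex
  have hkj : k j = e := by
    obtain ⟨h1, h2⟩ := hkm j le_rfl
    exact Val_uniq h1 ho (h2.symm.trans he)
  choose q hq1 hq2 using fun l : ℕ => fun hl : Odd (m l) => Val_fac (k l) (m l) hl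
  set E : ℕ → ℕ := fun l => 2 * (j - l) + 2 ^ k l with hE
  set S := (range (j + 1)).filter (fun l => a l = 1) with hS
  have hjS : j ∈ S := by
    rw [hS, mem_filter, mem_range]; exact ⟨by omega, haj⟩
  obtain ⟨l0, hl0, hmin⟩ := exists_min_image S E ⟨j, hjS⟩
  have hl0' := mem_filter.1 hl0
  have hl0j : l0 ≤ j := by have := mem_range.1 hl0'.1; omega
  have hEj : E j = 2 ^ e := by simp only [hE, hkj]; omega
  have hE0 : E l0 < 2 * j + 2 := lt_of_le_of_lt ((hmin j hjS).trans hEj.le) hcon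
  have hlt : ∀ l ∈ S, l ≠ l0 → E l0 < E l := by
    intro l hl hne
    have hl' := mem_filter.1 hl
    have hlj : l ≤ j := by have := mem_range.1 hl'.1; omega
    refine lt_of_le_of_ne (hmin l hl) ?_
    rcases lt_or_gt_of_ne hne with h | h
    · exact (Val_ne h hl0j hK (hkm l hlj).1 (hkm l hlj).2 (hkm l0 hl0j).2).symm
    · exact Val_ne h hlj hK (hkm l0 hl0j).1 (hkm l0 hl0j).2 (hkm l hlj).2
  -- the terms
  have hterm : ∀ l ∈ S, C (a l) * X ^ (3 * l) * (1 + X) ^ (2 * (j - l)) *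
      (1 + X ^ (K - 4 * l)) = (1 + X : (ZMod 2)[X]) ^ E l *
        (X ^ (3 * l) * if h : Odd (m l) then q l h else 0) := by
    intro l hl
    have hl' := mem_filter.1 hl
    have hlj : l ≤ j := by have := mem_range.1 hl'.1; omega
    obtain ⟨h1, h2⟩ := hkm l hlj
    rw [dif_pos h1, h2, hq2 l h1, hl'.2, hE]
    simp only [map_one]
    ring
  have hsum : ∑ l ∈ range (j + 1), C (a l) * X ^ (3 * l) * (1 + X) ^ (2 * (j - l)) *
        (1 + X ^ (K - 4 * l)) = ∑ l ∈ S, (1 + X : (ZMod 2)[X]) ^ E l *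
        (X ^ (3 * l) * if h : Odd (m l) then q l h else 0) := by
    rw [← sum_congr rfl hterm]
    symm
    refine sum_subset (filter_subset _ _) (fun l hl hnl => ?_)
    have h0 : a l = 0 := by
      have h1 : a l ≠ 1 := fun h => hnl (mem_filter.2 ⟨hl, h⟩)
      generalize a l = x at h1
      revert x
      decide
    rw [h0]
    simp
  rw [hsum, ← add_sum_erase S _ hl0] at hdvd
  have hrest : ∀ l ∈ S.erase l0, ((1 + X : (ZMod 2)[X]) ^ (E l0 + 1)) ∣ (1 + X : (ZMod 2)[X]) ^ E l *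
        (X ^ (3 * l) * if h : Odd (m l) then q l h else 0) := by
    intro l hl
    have hl' := mem_erase.1 hl
    exact Dvd.dvd.mul_right (pow_dvd_pow _ (hlt l hl'.2 hl'.1)) _
  have hd1 : ((1 + X : (ZMod 2)[X]) ^ (E l0 + 1)) ∣ (1 + X : (ZMod 2)[X]) ^ E l0 *
        (X ^ (3 * l0) * if h : Odd (m l0) then q l0 h else 0) := by
    have h1 := (pow_dvd_pow (1 + X : (ZMod 2)[X]) (show E l0 + 1 ≤ 2 * j + 2 by omega)).trans hdvd
    exact (dvd_add_left (dvd_sum hrest)).1 h1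
  have hne : (1 + X : (ZMod 2)[X]) ≠ 0 := by
    intro h
    have := congrArg (fun f : (ZMod 2)[X] => f.coeff 0) h
    simp at this
  rw [pow_succ] at hd1
  have hd2 := (mul_dvd_mul_iff_left (pow_ne_zero (E l0) hne)).1 hd1
  obtain ⟨g, hg⟩ := hd2
  have hev := congrArg (fun f : (ZMod 2)[X] => f.eval 1) hg
  simp only [eval_mul, eval_pow, eval_X, one_pow, one_mul, eval_add, eval_one] at hev
  rw [dif_pos (hkm l0 hl0j).1, hq1 l0 (hkm l0 hl0j).1] at hev
  have h11 : (1 + 1 : ZMod 2) = 0 := by decide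
  rw [h11, zero_mul] at hev
  exact one_ne_zero hev

end Pool.Agent.DYM
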